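import Pool.Agent.H223.PS.Scales

/-! Integer vectors near almost every `p`-adic point, and near the points `β v_j`, avoid sets which depend on a scale. -/

set_option autoImplicit false

open MeasureTheory Filter Topology

namespace Pool.Agent.H223.PS

open Pool.Agent.V35.WM (ExpLe tendsto_of_expLe expLe_geom)

theorem abs_main {ι : Type*} [Fintype ι] (Bad : ℝ → Set (ι → ℤ)) {s : ℝ} (hs : 0 ≤ s)
    (hB : ∀ ε : ℝ, 0 < ε → ∃ C : ℝ, ∀ X : ℝ, 1 ≤ X → (Bad X).Finite ∧ ((Bad X).ncard : ℝ) ≤ C * X ^ (s + ε)) :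
    (∀ (p : ℕ) [Fact p.Prime] (σ : ℝ), 0 < σ → ∃ E : Set (ι → ℤ_[p]), dimH E ≤ ENNReal.ofReal (s / σ) ∧
      ∀ α ∉ E, ∃ T₀ : ℝ, 1 ≤ T₀ ∧ ∀ T ≥ T₀, ∀ q : ι → ℤ, (∀ i, ‖(q i : ℤ_[p]) - α i‖ ≤ T ^ (-σ)) →
        ∃ X : ℝ, T ≤ X ∧ X ≤ Real.exp 1 * T ∧ q ∉ Bad X) ∧
    (∀ (v : ℕ → ℝ) (τ θ : ℝ), (∀ j, 1 ≤ v j) → 0 ≤ τ → ExpLe v τ → θ < 1 →
      ∃ E : Set (ι → ℝ), dimH E ≤ ENNReal.ofReal ((s + τ) / (1 - θ)) ∧
      ∀ β ∉ E, ∃ J : ℝ, 1 ≤ J ∧ ∃ j₀ : ℕ, ∀ j ≥ j₀, ∀ q : ι → ℤ,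
        (∀ i, |(q i : ℝ) - β i * v j| ≤ (v j) ^ θ) → (∀ i, |(q i : ℝ)| ≤ J * v j) ∧ q ∉ Bad (J * v j)) := by
  have he1 : (1 : ℝ) ≤ Real.exp 1 := Real.one_le_exp zero_le_one
  constructor
  · intro p _ σ hσ
    have hv : ExpLe (fun m : ℕ => (Real.exp 1) ^ m) 0 := expLe_geom (Real.exp 1) (Real.one_lt_exp_iff.2 one_pos)
    obtain ⟨E, hE1, hE2⟩ := scales (M := ι → ℤ_[p]) (fun (_ : ℕ) (q : ι → ℤ) (i : ι) => (q i : ℤ_[p]))
      (fun m : ℕ => (Real.exp 1) ^ m) (fun m => one_le_pow₀ he1) le_rfl hv hs hσ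
      (fun _ m => Bad ((Real.exp 1) ^ (m + 1))) (fun _ ε' hε' => by
        obtain ⟨C, hC⟩ := hB ε' hε'
        refine ⟨|C| * (Real.exp 1) ^ (s + ε'), fun m => ?_⟩
        obtain ⟨g1, g2⟩ := hC ((Real.exp 1) ^ (m + 1)) (one_le_pow₀ he1)
        refine ⟨g1, g2.trans ?_⟩
        rw [pow_succ, Real.mul_rpow (by positivity) (by positivity), mul_assoc |C|,
          mul_comm ((Real.exp 1) ^ (s + ε'))]
        exact mul_le_mul_of_nonneg_right (le_abs_self C) (by positivity))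
    refine ⟨E, by simpa using hE1, fun α hα => ?_⟩
    obtain ⟨m₀, hm₀⟩ := hE2 α hα 0
    refine ⟨(Real.exp 1) ^ (m₀ + 1), one_le_pow₀ he1, fun T hT2 q hq => ?_⟩
    have hT3 : 1 ≤ T := (one_le_pow₀ he1).trans hT2
    have hT0 : 0 < T := by linarith
    obtain ⟨m, hm⟩ : ∃ m : ℕ, m = ⌊Real.log T⌋₊ := ⟨_, rfl⟩
    have hlT : 0 ≤ Real.log T := Real.log_nonneg hT3
    have hmT : (Real.exp 1) ^ m ≤ T := by
      have h3 : (m : ℝ) ≤ Real.log T := by rw [hm]; exact Nat.floor_le hlT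
      calc (Real.exp 1) ^ m = Real.exp m := by rw [← Real.exp_nat_mul]; ring_nf
        _ ≤ Real.exp (Real.log T) := Real.exp_le_exp.2 h3
        _ = T := Real.exp_log hT0
    have hTm : T ≤ (Real.exp 1) ^ (m + 1) := by
      have h3 : Real.log T ≤ ((m + 1 : ℕ) : ℝ) := by
        rw [hm]
        push_cast
        exact (Nat.lt_floor_add_one _).le
      calc T = Real.exp (Real.log T) := (Real.exp_log hT0).symm
        _ ≤ Real.exp ((m + 1 : ℕ) : ℝ) := Real.exp_le_exp.2 h3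
        _ = (Real.exp 1) ^ (m + 1) := by rw [← Real.exp_nat_mul]; ring_nf
    have hmm : m ≥ m₀ := by
      by_contra hcon
      have h5 : (Real.exp 1) ^ (m + 1) < (Real.exp 1) ^ (m₀ + 1) :=
        pow_lt_pow_right₀ (Real.one_lt_exp_iff.2 one_pos) (by omega)
      linarith
    refine ⟨(Real.exp 1) ^ (m + 1), hTm, ?_, ?_⟩
    · rw [pow_succ, mul_comm]
      exact mul_le_mul_of_nonneg_left hmT (by positivity)
    · intro hbad
      have h6 := hm₀ m hmm q hbad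
      have h7 : dist (fun i : ι => (q i : ℤ_[p])) α ≤ T ^ (-σ) := by
        rw [dist_pi_le_iff (Real.rpow_nonneg hT0.le _)]
        intro i
        rw [dist_eq_norm]
        exact hq i
      have h8 : T ^ (-σ) ≤ ((Real.exp 1) ^ m) ^ (-σ) :=
        Real.rpow_le_rpow_of_nonpos (by positivity) hmT (by linarith)
      linarith
  · intro v τ θ hv1 hτ hv hθ
    obtain ⟨E, hE1, hE2⟩ := scales (M := ι → ℝ) (fun (j : ℕ) (q : ι → ℤ) (i : ι) => (q i : ℝ) / v j)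
      v hv1 hτ hv hs (sub_pos.2 hθ)
      (fun J j => Bad ((J + 1 : ℝ) * v j)) (fun J ε' hε' => by
        obtain ⟨C, hC⟩ := hB ε' hε'
        refine ⟨|C| * (J + 1 : ℝ) ^ (s + ε'), fun j => ?_⟩
        have hv0 : 0 < v j := lt_of_lt_of_le one_pos (hv1 j)
        have hJ1 : (1 : ℝ) ≤ (J + 1 : ℝ) := by
          have : (0 : ℝ) ≤ J := Nat.cast_nonneg J
          linarith
        obtain ⟨g1, g2⟩ := hC ((J + 1 : ℝ) * v j) (one_le_mul_of_one_le_of_one_le hJ1 (hv1 j))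
        refine ⟨g1, g2.trans ?_⟩
        rw [Real.mul_rpow (by positivity) hv0.le, mul_assoc |C|]
        exact mul_le_mul_of_nonneg_right (le_abs_self C) (by positivity))
    refine ⟨E, hE1, fun β hβ => ?_⟩
    obtain ⟨J, hJ⟩ := exists_nat_ge (‖β‖ + 1)
    have hJ0 : (0 : ℝ) ≤ J := Nat.cast_nonneg J
    obtain ⟨j₀, hj₀⟩ := hE2 β hβ J
    refine ⟨(J + 1 : ℝ), by linarith, j₀, fun j hj q hq => ?_⟩
    have hv0 : 0 < v j := lt_of_lt_of_le one_pos (hv1 j)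
    have hvθ : (v j) ^ θ ≤ v j := by
      calc (v j) ^ θ ≤ (v j) ^ (1 : ℝ) := Real.rpow_le_rpow_of_exponent_le (hv1 j) hθ.le
        _ = v j := Real.rpow_one _
    refine ⟨fun i => ?_, ?_⟩
    · have h3 := hq i
      have h4 : |β i| ≤ ‖β‖ := norm_le_pi_norm β i
      have h5 : |(q i : ℝ)| ≤ |(q i : ℝ) - β i * v j| + |β i * v j| := by
        calc |(q i : ℝ)| = |((q i : ℝ) - β i * v j) + β i * v j| := by ring_nf
          _ ≤ _ := abs_add_le _ _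
      rw [abs_mul, abs_of_pos hv0] at h5
      have h6 : |β i| * v j ≤ (J - 1 : ℝ) * v j := mul_le_mul_of_nonneg_right (by linarith) hv0.le
      nlinarith
    · intro hbad
      have h6 := hj₀ j hj q hbad
      have h7 : dist (fun i : ι => (q i : ℝ) / v j) β ≤ (v j) ^ (-(1 - θ)) := by
        rw [dist_pi_le_iff (Real.rpow_nonneg hv0.le _)]
        intro i
        rw [Real.dist_eq]
        have h8 : (q i : ℝ) / v j - β i = ((q i : ℝ) - β i * v j) / v j := by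
          field_simp
        have h9 : (v j) ^ (-(1 - θ)) = (v j) ^ θ / v j := by
          rw [show -(1 - θ) = θ - 1 by ring, Real.rpow_sub hv0, Real.rpow_one]
        rw [h8, h9, abs_div, abs_of_pos hv0]
        exact div_le_div_of_nonneg_right (hq i) hv0.le
      linarith

open Classical in
/-- vectors determined by a part `N` of their coordinates -/
lemma count_part {ι : Type*} [Fintype ι] (N : Set ι) (S : Set (ι → ℤ)) {X : ℝ} (hX : 1 ≤ X)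
    (h1 : ∀ q ∈ S, ∀ i, |(q i : ℝ)| ≤ X)
    (h2 : ∀ q ∈ S, ∀ q' ∈ S, (∀ i ∈ N, q i = q' i) → q = q') :
    S.Finite ∧ (S.ncard : ℝ) ≤ (3 * X) ^ (N.ncard) := by
  have hX0 : 0 ≤ X := by linarith
  have hfl1 : (1 : ℤ) ≤ ⌊X⌋ := Int.le_floor.2 (by exact_mod_cast hX)
  have hmaps : Set.MapsTo (fun (q : ι → ℤ) (i : N) => q i) S
      ((Fintype.piFinset fun _ : N => Finset.Icc (-⌊X⌋) ⌊X⌋ : Finset (N → ℤ)) : Set (N → ℤ)) := by
    intro q hq
    rw [Finset.mem_coe, Fintype.mem_piFinset]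
    intro i
    obtain ⟨a1, a2⟩ := abs_le.1 (h1 q hq i)
    rw [Finset.mem_Icc]
    constructor
    · have h3 : -(q i) ≤ ⌊X⌋ := Int.le_floor.2 (by push_cast; linarith)
      linarith
    · exact Int.le_floor.2 a2
  have hinj : Set.InjOn (fun (q : ι → ℤ) (i : N) => q i) S := by
    intro q hq q' hq' h
    exact h2 q hq q' hq' fun i hi => congrFun h ⟨i, hi⟩
  refine ⟨Set.Finite.of_injOn hmaps hinj (Finset.finite_toSet _), ?_⟩
  have h5 := Set.ncard_le_ncard_of_injOn _ hmaps hinj (Finset.finite_toSet _)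
  rw [Set.ncard_coe_finset, Fintype.card_piFinset, Finset.prod_const, Finset.card_univ, Int.card_Icc] at h5
  have hN : Fintype.card N = N.ncard := by rw [← Nat.card_eq_fintype_card]; rfl
  rw [hN] at h5
  have h6 : (((⌊X⌋ + 1 - -⌊X⌋).toNat : ℕ) : ℝ) ≤ 3 * X := by
    have h7 : (((⌊X⌋ + 1 - -⌊X⌋).toNat : ℕ) : ℤ) = ⌊X⌋ + 1 - -⌊X⌋ := Int.toNat_of_nonneg (by linarith)
    have h8 : (((⌊X⌋ + 1 - -⌊X⌋).toNat : ℕ) : ℝ) = (⌊X⌋ : ℝ) + 1 - -(⌊X⌋ : ℝ) := by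
      exact_mod_cast congrArg (Int.cast : ℤ → ℝ) h7
    rw [h8]
    have h9 := Int.floor_le X
    linarith
  calc (S.ncard : ℝ) ≤ (((⌊X⌋ + 1 - -⌊X⌋).toNat ^ N.ncard : ℕ) : ℝ) := by exact_mod_cast h5
    _ = (((⌊X⌋ + 1 - -⌊X⌋).toNat : ℕ) : ℝ) ^ N.ncard := by push_cast; rfl
    _ ≤ (3 * X) ^ N.ncard := pow_le_pow_left₀ (Nat.cast_nonneg _) h6 _

end Pool.Agent.H223.PS
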