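import Pool.Agent.H223.PS.Engine
import Pool.Agent.V11001.KM.NatSet

/-! Sparse sets of natural numbers: residue classes of almost every `p`-adic integer, and windows around the powers of almost
every base. -/

set_option autoImplicit false

open MeasureTheory Filter Topology Finset

namespace Pool.Agent.H223.PS

open Pool.Agent.V11001.KM (Fast Near)

/-- no `t` in `P` with `1 ≤ t ≤ T` and `|t - α|_p ≤ T ^ (-σ)`, for all large `T` -/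
def NoneInClasses (p : ℕ) [Fact p.Prime] (σ : ℝ) (α : ℤ_[p]) (G : ℕ → Prop) : Prop :=
  ∃ T₀ : ℝ, ∀ T ≥ T₀, ∀ t : ℕ, 1 ≤ t → (t : ℝ) ≤ T → ‖(t : ℤ_[p]) - α‖ ≤ T ^ (-σ) → G t

open Classical in
theorem both (P : ℕ → Set ℕ) {s : ℝ} (hs : 0 ≤ s)
    (hP : ∀ j, ∀ ε : ℝ, 0 < ε → ∃ C : ℝ, ∀ X : ℕ, 1 ≤ X →
      (((Ioc 0 X).filter (fun t => t ∈ P j)).card : ℝ) ≤ C * (X : ℝ) ^ (s + ε)) :
    (∀ (p : ℕ) [Fact p.Prime] (σ : ℝ), 0 < σ → ∃ E : Set ℤ_[p], dimH E ≤ ENNReal.ofReal (s / σ) ∧ ∀ α ∉ E, ∀ j,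
      ∃ T₀ : ℝ, ∀ T ≥ T₀, ∀ t : ℕ, (t : ℝ) ≤ T → ‖(t : ℤ_[p]) - α‖ ≤ T ^ (-σ) → t ∉ P j) ∧
    (∀ (ν : ℕ → ℝ) (θ : ℝ), Fast ν → θ < 1 → ∀ B : Set ℝ, B.Countable →
      ∃ E : Set ℝ, dimH E ≤ ENNReal.ofReal (s / (1 - θ)) ∧ ∀ x : ℝ, 1 < x → x ∉ E → ∀ β ∈ B, 0 < β → ∀ j,
        ∃ H₀ : ℝ, ∀ t : ℕ, Near ν θ β x t → H₀ ≤ t → t ∉ P j) := by
  have h : ∀ j, ∀ ε : ℝ, 0 < ε → ∃ C : ℝ, ∀ X : ℝ, 1 ≤ X → {t : ℕ | t ∈ P j ∧ (t : ℝ) ≤ X}.Finite ∧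
      ({t : ℕ | t ∈ P j ∧ (t : ℝ) ≤ X}.ncard : ℝ) ≤ C * X ^ (s + ε) := fun j ε hε =>
    Pool.Agent.V11001.KM.count_of_nat (P j) hs hε (hP j ε hε)
  refine ⟨fun p _ σ hσ => padic_nat p P hs h hσ, fun ν θ hν hθ B hB => ?_⟩
  obtain ⟨E, h1, h2⟩ := Pool.Agent.V11001.KM.family_threshold (fun t : ℕ => (t : ℝ)) hν hs hθ B hB P h
  refine ⟨E, h1, fun x hx hxE β hβ hβ0 j => ?_⟩
  obtain ⟨H₀, h3⟩ := h2 x hx hxE β hβ hβ0 j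
  exact ⟨H₀, fun t ht hHt htP => absurd (h3 t htP ht) (not_lt.2 hHt)⟩

end Pool.Agent.H223.PS
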