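import Mathlib

/-! Tuples of integers: from few exceptions in boxes of residue classes modulo powers of `p` to the number of all exceptions. -/

set_option autoImplicit false

namespace Pool.Agent.H223.PS

open Finset

/-- the covering of the tuples prime to `p` by boxes of residue classes -/
theorem step (p : ℕ) (hp : p.Prime) (k E₀ C₀ : ℕ) (R : (Fin k → ℕ) → Prop) [DecidablePred R]
    (hR : ∀ (H e : ℕ) (v : Fin k → ℕ), (H + 2) ^ E₀ ≤ p ^ e → (∀ i, ¬ p ∣ v i ∧ v i ≤ p ^ e) →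
      ((Fintype.piFinset fun _ : Fin k => Finset.Icc 1 H).filter fun g => R (fun i => v i + g i * p ^ e)).card ≤
        C₀ * H ^ (k - 1))
    (m N : ℕ) (hm : 1 ≤ m) (hB : 2 ≤ p ^ m) (hN : N ≤ (p ^ m - 2) * p ^ ((E₀ + 1) * m)) :
    {t : Fin k → ℕ | (∀ i, ¬ p ∣ t i ∧ t i ≤ N) ∧ R t}.Finite ∧
      {t : Fin k → ℕ | (∀ i, ¬ p ∣ t i ∧ t i ≤ N) ∧ R t}.ncard ≤
        k * (p ^ ((E₀ + 1) * m) * (N + 1) ^ (k - 1)) + (p ^ ((E₀ + 1) * m)) ^ k * (C₀ * (p ^ m - 2) ^ (k - 1)) := by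
  classical
  set P : ℕ := p ^ ((E₀ + 1) * m) with hP
  set H : ℕ := p ^ m - 2 with hH
  have hP0 : 0 < P := pow_pos hp.pos _
  have hpP : p ∣ P := dvd_pow_self p (by positivity)
  set F1 : Finset (Fin k → ℕ) := univ.biUnion fun i : Fin k =>
    Fintype.piFinset (fun j => if j = i then range P else range (N + 1)) with hF1
  set F2 : Finset (Fin k → ℕ) := ((Fintype.piFinset fun _ : Fin k => range P).filter (fun v => ∀ i, ¬ p ∣ v i)).biUnion
    fun v => ((Fintype.piFinset fun _ : Fin k => Icc 1 H).filter fun g => R (fun i => v i + g i * P)).image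
      fun g i => v i + g i * P with hF2
  have hsub : {t : Fin k → ℕ | (∀ i, ¬ p ∣ t i ∧ t i ≤ N) ∧ R t} ⊆ ((F1 ∪ F2 : Finset (Fin k → ℕ)) : Set (Fin k → ℕ)) := by
    rintro t ⟨ht, hRt⟩
    rw [mem_coe, mem_union]
    by_cases hsmall : ∃ i, t i < P
    · left
      obtain ⟨i, hi⟩ := hsmall
      rw [hF1, mem_biUnion]
      refine ⟨i, mem_univ _, ?_⟩
      rw [Fintype.mem_piFinset]
      intro j
      by_cases hj : j = i
      · subst hj
        rw [if_pos rfl, mem_range]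
        exact hi
      · rw [if_neg hj, mem_range]
        have := (ht j).2
        omega
    · right
      push Not at hsmall
      rw [hF2, mem_biUnion]
      have hrec : (fun i => t i % P + t i / P * P) = t := by
        funext i
        exact Nat.mod_add_div' (t i) P
      refine ⟨fun i => t i % P, ?_, ?_⟩
      · rw [mem_filter, Fintype.mem_piFinset]
        refine ⟨fun i => mem_range.2 (Nat.mod_lt _ hP0), fun i hdvd => (ht i).1 ?_⟩
        exact (Nat.dvd_mod_iff hpP).1 hdvd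
      · rw [mem_image]
        refine ⟨fun i => t i / P, ?_, hrec⟩
        rw [mem_filter, Fintype.mem_piFinset]
        refine ⟨fun i => ?_, ?_⟩
        · rw [mem_Icc]
          refine ⟨(Nat.one_le_div_iff hP0).2 (hsmall i), ?_⟩
          calc t i / P ≤ (H * P) / P := Nat.div_le_div_right ((ht i).2.trans hN)
            _ = H := Nat.mul_div_cancel _ hP0
        · rw [hrec]
          exact hRt
  have hc1 : F1.card ≤ k * (P * (N + 1) ^ (k - 1)) := by
    refine (card_biUnion_le_card_mul _ _ (P * (N + 1) ^ (k - 1)) fun i _ => ?_).trans ?_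
    · rw [Fintype.card_piFinset, ← Finset.mul_prod_erase univ _ (mem_univ i), if_pos rfl, card_range]
      refine Nat.mul_le_mul_left _ (le_of_eq ?_)
      have h1 : ∀ j ∈ univ.erase i, (if j = i then range P else range (N + 1)).card = N + 1 := by
        intro j hj
        rw [if_neg (ne_of_mem_erase hj), card_range]
      rw [Finset.prod_congr rfl h1, prod_const, card_erase_of_mem (mem_univ i), card_univ, Fintype.card_fin]
    · rw [card_univ, Fintype.card_fin]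
  have hE : (H + 2) ^ E₀ ≤ p ^ ((E₀ + 1) * m) := by
    have h1 : H + 2 = p ^ m := by omega
    rw [h1, ← pow_mul]
    exact Nat.pow_le_pow_right hp.pos (by nlinarith)
  have hc2 : F2.card ≤ P ^ k * (C₀ * H ^ (k - 1)) := by
    refine (card_biUnion_le_card_mul _ _ (C₀ * H ^ (k - 1)) fun v hv => ?_).trans ?_
    · refine card_image_le.trans (hR H ((E₀ + 1) * m) v hE fun i => ?_)
      rw [mem_filter, Fintype.mem_piFinset] at hv
      exact ⟨hv.2 i, (mem_range.1 (hv.1 i)).le⟩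
    · refine Nat.mul_le_mul_right _ ((card_filter_le _ _).trans (le_of_eq ?_))
      rw [Fintype.card_piFinset, prod_const, card_range, card_univ, Fintype.card_fin]
  refine ⟨(finite_toSet _).subset hsub, ?_⟩
  refine (Set.ncard_le_ncard hsub (finite_toSet _)).trans ?_
  rw [Set.ncard_coe_finset]
  exact (card_union_le _ _).trans (Nat.add_le_add hc1 hc2)

/-- the number of the exceptional tuples prime to `p` -/
theorem count_coprime (p : ℕ) (hp : p.Prime) (k E₀ C₀ : ℕ) (hk : 1 ≤ k) :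
    ∃ C : ℝ, 0 ≤ C ∧ ∀ (R : (Fin k → ℕ) → Prop) [DecidablePred R],
      (∀ (H e : ℕ) (v : Fin k → ℕ), (H + 2) ^ E₀ ≤ p ^ e → (∀ i, ¬ p ∣ v i ∧ v i ≤ p ^ e) →
        ((Fintype.piFinset fun _ : Fin k => Finset.Icc 1 H).filter fun g => R (fun i => v i + g i * p ^ e)).card ≤
          C₀ * H ^ (k - 1)) →
      ∀ X : ℝ, 1 ≤ X → {t : Fin k → ℕ | (∀ i, ¬ p ∣ t i ∧ (t i : ℝ) ≤ X) ∧ R t}.Finite ∧
      ({t : Fin k → ℕ | (∀ i, ¬ p ∣ t i ∧ (t i : ℝ) ≤ X) ∧ R t}.ncard : ℝ) ≤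
        C * X ^ ((k : ℝ) - 1 / ((E₀ : ℝ) + 2)) := by
  set κ : ℝ := 1 / ((E₀ : ℝ) + 2) with hκ
  have hE2 : (0 : ℝ) < (E₀ : ℝ) + 2 := by positivity
  have hκ0 : 0 < κ := by positivity
  have hκ1 : κ ≤ 1 := by
    rw [hκ, div_le_one hE2]
    linarith [Nat.cast_nonneg (α := ℝ) E₀]
  have hk1 : (1 : ℝ) ≤ k := by exact_mod_cast hk
  have hp1 : (1 : ℝ) < p := by exact_mod_cast hp.one_lt
  have hp2 : (2 : ℝ) ≤ p := by exact_mod_cast hp.two_le
  set K₀ : ℝ := 3 * (p : ℝ) ^ (2 * (E₀ + 2)) with hK₀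
  have hK₀1 : 1 ≤ K₀ := by
    have : (1 : ℝ) ≤ (p : ℝ) ^ (2 * (E₀ + 2)) := one_le_pow₀ hp1.le
    linarith
  refine ⟨k * (K₀ * 2 ^ (k - 1)) + C₀ * K₀ ^ k, by positivity, fun R _ hR X hX => ?_⟩
  have hX0 : 0 < X := by linarith
  -- the scale
  set x : ℝ := (3 * X) ^ κ with hx
  have hx1 : 1 ≤ x := Real.one_le_rpow (by linarith) hκ0.le
  obtain ⟨n, hn1, hn2⟩ := exists_nat_pow_near hx1 hp1
  set m : ℕ := n + 2 with hm
  set B : ℝ := (p : ℝ) ^ m with hBdef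
  have hBx : x ≤ B := by
    refine hn2.le.trans ?_
    exact pow_le_pow_right₀ hp1.le (by omega)
  have hB4 : 4 ≤ B := by
    have h1 : (2 : ℝ) ^ 2 ≤ (p : ℝ) ^ 2 := pow_le_pow_left₀ (by norm_num) hp2 2
    have h2 : (p : ℝ) ^ 2 ≤ B := pow_le_pow_right₀ hp1.le (by omega)
    linarith
  have hB0 : 0 < B := by linarith
  have hxE : x ^ (E₀ + 2) = 3 * X := by
    rw [hx, ← Real.rpow_natCast, ← Real.rpow_mul (by positivity)]
    have : κ * ((E₀ + 2 : ℕ) : ℝ) = 1 := by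
      rw [hκ]
      push_cast
      field_simp
    rw [this, Real.rpow_one]
  set Y : ℝ := B ^ (E₀ + 2) with hY
  have hY1 : 1 ≤ Y := one_le_pow₀ (by linarith)
  have hYX : Y ≤ K₀ * X := by
    have h1 : B ≤ (p : ℝ) ^ 2 * x := by
      rw [hBdef, hm, pow_add, mul_comm]
      exact mul_le_mul_of_nonneg_left hn1 (by positivity)
    calc Y ≤ ((p : ℝ) ^ 2 * x) ^ (E₀ + 2) := pow_le_pow_left₀ hB0.le h1 _
      _ = (p : ℝ) ^ (2 * (E₀ + 2)) * x ^ (E₀ + 2) := by rw [mul_pow, ← pow_mul]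
      _ = K₀ * X := by rw [hxE, hK₀]; ring
  have hXY : 3 * X ≤ Y := by
    rw [← hxE]
    exact pow_le_pow_left₀ (by linarith) hBx _
  have hpm : 2 ≤ p ^ m := by
    have h1 : (2 : ℝ) ≤ ((p ^ m : ℕ) : ℝ) := by
      push_cast
      linarith
    exact_mod_cast h1
  set N : ℕ := ⌊X⌋₊ with hN
  have hNX : (N : ℝ) ≤ X := Nat.floor_le hX0.le
  have hcastH : ((p ^ m - 2 : ℕ) : ℝ) = B - 2 := by
    rw [Nat.cast_sub hpm]
    push_cast
    rfl
  have hcastP : ((p ^ ((E₀ + 1) * m) : ℕ) : ℝ) = B ^ (E₀ + 1) := by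
    push_cast
    rw [hBdef, ← pow_mul, mul_comm]
  have hNle : N ≤ (p ^ m - 2) * p ^ ((E₀ + 1) * m) := by
    have h1 : (N : ℝ) ≤ (((p ^ m - 2) * p ^ ((E₀ + 1) * m) : ℕ) : ℝ) := by
      rw [Nat.cast_mul, hcastH, hcastP]
      have h2 : Y = B * B ^ (E₀ + 1) := by rw [hY, pow_succ' B (E₀ + 1)]
      have h3 : (0 : ℝ) ≤ B ^ (E₀ + 1) := by positivity
      have h4 : (B - 2) * B ^ (E₀ + 1) ≥ (B / 2) * B ^ (E₀ + 1) := mul_le_mul_of_nonneg_right (by linarith) h3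
      nlinarith
    exact_mod_cast h1
  obtain ⟨hfin, hcard⟩ := step p hp k E₀ C₀ R hR m N (by omega) hpm hNle
  have hset : {t : Fin k → ℕ | (∀ i, ¬ p ∣ t i ∧ (t i : ℝ) ≤ X) ∧ R t} =
      {t : Fin k → ℕ | (∀ i, ¬ p ∣ t i ∧ t i ≤ N) ∧ R t} := by
    ext t
    simp only [Set.mem_ofPred_eq, hN]
    refine and_congr_left fun _ => forall_congr' fun i => and_congr_right fun _ => ?_
    exact (Nat.le_floor_iff hX0.le).symm
  rw [hset]
  refine ⟨hfin, ?_⟩
  have hcard' : (({t : Fin k → ℕ | (∀ i, ¬ p ∣ t i ∧ t i ≤ N) ∧ R t}.ncard : ℕ) : ℝ) ≤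
      k * (B ^ (E₀ + 1) * ((N : ℝ) + 1) ^ (k - 1)) + (B ^ (E₀ + 1)) ^ k * (C₀ * (B - 2) ^ (k - 1)) := by
    have h1 : ∀ (M P' H' : ℕ) (b h : ℝ), (P' : ℝ) = b → (H' : ℝ) = h →
        M ≤ k * (P' * (N + 1) ^ (k - 1)) + P' ^ k * (C₀ * H' ^ (k - 1)) →
        (M : ℝ) ≤ k * (b * ((N : ℝ) + 1) ^ (k - 1)) + b ^ k * (C₀ * h ^ (k - 1)) := by
      rintro M P' H' b h rfl rfl hle
      exact_mod_cast hle
    exact h1 _ _ _ _ _ hcastP hcastH hcard
  refine hcard'.trans ?_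
  -- real exponents
  have hBκ : B = Y ^ κ := by
    rw [hY, ← Real.rpow_natCast, ← Real.rpow_mul hB0.le]
    have : ((E₀ + 2 : ℕ) : ℝ) * κ = 1 := by
      rw [hκ]
      push_cast
      field_simp
    rw [this, Real.rpow_one]
  have hY0 : 0 < Y := by linarith
  have hPκ : B ^ (E₀ + 1) = Y ^ (1 - κ) := by
    rw [Real.rpow_sub hY0, Real.rpow_one, ← hBκ, hY, pow_succ B (E₀ + 1)]
    field_simp
  have e1 : k * (B ^ (E₀ + 1) * ((N : ℝ) + 1) ^ (k - 1)) ≤ k * (K₀ * 2 ^ (k - 1)) * X ^ ((k : ℝ) - κ) := by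
    have h1 : B ^ (E₀ + 1) ≤ K₀ * X ^ (1 - κ) := by
      rw [hPκ]
      calc Y ^ (1 - κ) ≤ (K₀ * X) ^ (1 - κ) := Real.rpow_le_rpow hY0.le hYX (by linarith)
        _ = K₀ ^ (1 - κ) * X ^ (1 - κ) := Real.mul_rpow (by linarith) hX0.le
        _ ≤ K₀ ^ (1 : ℝ) * X ^ (1 - κ) := by
            refine mul_le_mul_of_nonneg_right ?_ (by positivity)
            exact Real.rpow_le_rpow_of_exponent_le hK₀1 (by linarith)
        _ = K₀ * X ^ (1 - κ) := by rw [Real.rpow_one]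
    have h2 : ((N : ℝ) + 1) ^ (k - 1) ≤ 2 ^ (k - 1) * X ^ ((k : ℝ) - 1) := by
      calc ((N : ℝ) + 1) ^ (k - 1) ≤ (2 * X) ^ (k - 1) := pow_le_pow_left₀ (by positivity) (by linarith) _
        _ = 2 ^ (k - 1) * X ^ (k - 1) := mul_pow _ _ _
        _ = 2 ^ (k - 1) * X ^ ((k : ℝ) - 1) := by
            rw [← Real.rpow_natCast X (k - 1), Nat.cast_sub hk, Nat.cast_one]
    calc (k : ℝ) * (B ^ (E₀ + 1) * ((N : ℝ) + 1) ^ (k - 1))
        ≤ k * ((K₀ * X ^ (1 - κ)) * (2 ^ (k - 1) * X ^ ((k : ℝ) - 1))) := by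
          refine mul_le_mul_of_nonneg_left ?_ (by positivity)
          exact mul_le_mul h1 h2 (by positivity) (by positivity)
      _ = k * (K₀ * 2 ^ (k - 1)) * (X ^ (1 - κ) * X ^ ((k : ℝ) - 1)) := by ring
      _ = k * (K₀ * 2 ^ (k - 1)) * X ^ ((k : ℝ) - κ) := by
          rw [← Real.rpow_add hX0]
          congr 2
          ring
  have e2 : (B ^ (E₀ + 1)) ^ k * (C₀ * (B - 2) ^ (k - 1)) ≤ C₀ * K₀ ^ k * X ^ ((k : ℝ) - κ) := by
    have h1 : (B - 2) ^ (k - 1) ≤ B ^ (k - 1) := pow_le_pow_left₀ (by linarith) (by linarith) _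
    have h2 : (B ^ (E₀ + 1)) ^ k * B ^ (k - 1) = Y ^ ((k : ℝ) - κ) := by
      rw [hPκ, ← Real.rpow_natCast (Y ^ (1 - κ)) k, ← Real.rpow_mul hY0.le]
      have h3 : B ^ (k - 1) = Y ^ (κ * ((k : ℝ) - 1)) := by
        rw [Real.rpow_mul hY0.le, ← hBκ, ← Real.rpow_natCast B (k - 1), Nat.cast_sub hk, Nat.cast_one]
      rw [h3, ← Real.rpow_add hY0]
      congr 1
      ring
    have h4 : Y ^ ((k : ℝ) - κ) ≤ K₀ ^ k * X ^ ((k : ℝ) - κ) := by
      calc Y ^ ((k : ℝ) - κ) ≤ (K₀ * X) ^ ((k : ℝ) - κ) := Real.rpow_le_rpow hY0.le hYX (by linarith)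
        _ = K₀ ^ ((k : ℝ) - κ) * X ^ ((k : ℝ) - κ) := Real.mul_rpow (by linarith) hX0.le
        _ ≤ K₀ ^ (k : ℝ) * X ^ ((k : ℝ) - κ) := by
            refine mul_le_mul_of_nonneg_right ?_ (by positivity)
            exact Real.rpow_le_rpow_of_exponent_le hK₀1 (by linarith)
        _ = K₀ ^ k * X ^ ((k : ℝ) - κ) := by rw [Real.rpow_natCast]
    calc (B ^ (E₀ + 1)) ^ k * (C₀ * (B - 2) ^ (k - 1))
        ≤ (B ^ (E₀ + 1)) ^ k * (C₀ * B ^ (k - 1)) := by
          refine mul_le_mul_of_nonneg_left ?_ (by positivity)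
          exact mul_le_mul_of_nonneg_left h1 (by positivity)
      _ = C₀ * ((B ^ (E₀ + 1)) ^ k * B ^ (k - 1)) := by ring
      _ = C₀ * Y ^ ((k : ℝ) - κ) := by rw [h2]
      _ ≤ C₀ * (K₀ ^ k * X ^ ((k : ℝ) - κ)) := mul_le_mul_of_nonneg_left h4 (by positivity)
      _ = _ := by ring
  calc _ ≤ k * (K₀ * 2 ^ (k - 1)) * X ^ ((k : ℝ) - κ) + C₀ * K₀ ^ k * X ^ ((k : ℝ) - κ) := add_le_add e1 e2
    _ = _ := by ring

/-- the number of all exceptional tuples -/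
theorem count_all (p : ℕ) (hp : p.Prime) (k E₀ C₀ : ℕ) (hk : 1 ≤ k) :
    ∃ C : ℝ, 0 ≤ C ∧ ∀ R : (Fin k → ℕ) → Prop, (∀ a t : Fin k → ℕ, (∀ i, 1 ≤ t i) → R (fun i => p ^ a i * t i) → R t) →
      (∀ (_ : DecidablePred R) (H e : ℕ) (v : Fin k → ℕ), (H + 2) ^ E₀ ≤ p ^ e → (∀ i, ¬ p ∣ v i ∧ v i ≤ p ^ e) →
        ((Fintype.piFinset fun _ : Fin k => Finset.Icc 1 H).filter fun g => R (fun i => v i + g i * p ^ e)).card ≤
          C₀ * H ^ (k - 1)) →
      ∀ X : ℝ, 1 ≤ X → {t : Fin k → ℕ | (∀ i, 1 ≤ t i ∧ (t i : ℝ) ≤ X) ∧ R t}.Finite ∧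
      ({t : Fin k → ℕ | (∀ i, 1 ≤ t i ∧ (t i : ℝ) ≤ X) ∧ R t}.ncard : ℝ) ≤
        C * X ^ ((k : ℝ) - 1 / (2 * ((E₀ : ℝ) + 2))) := by
  classical
  obtain ⟨C, hC, h⟩ := count_coprime p hp k E₀ C₀ hk
  have hE2 : (0 : ℝ) < (E₀ : ℝ) + 2 := by positivity
  set κ : ℝ := 1 / ((E₀ : ℝ) + 2) with hκ
  have hκ0 : 0 < κ := by positivity
  have hk1 : (1 : ℝ) ≤ k := by exact_mod_cast hk
  set ε : ℝ := κ / (2 * k) with hε
  have hε0 : 0 < ε := by positivity
  have hlog2 : 0 < Real.log 2 := Real.log_pos (by norm_num)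
  set K : ℝ := 1 / (ε * Real.log 2) + 1 with hK
  have hK0 : 0 < K := by positivity
  refine ⟨K ^ k * C, by positivity, fun R hinv hR X hX => ?_⟩
  have hX0 : 0 < X := by linarith
  obtain ⟨hfin, hcard⟩ := h R (fun H e v => hR inferInstance H e v) X hX
  set N : ℕ := ⌊X⌋₊ with hN
  have hN1 : 1 ≤ N := Nat.le_floor (by exact_mod_cast hX)
  set M : ℕ := Nat.log p N with hM
  set S : Set (Fin k → ℕ) := {t : Fin k → ℕ | (∀ i, ¬ p ∣ t i ∧ (t i : ℝ) ≤ X) ∧ R t} with hS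
  set F : Finset (Fin k → ℕ) := (Fintype.piFinset fun _ : Fin k => range (M + 1)).biUnion
    fun a => hfin.toFinset.image fun s i => p ^ a i * s i with hF
  have hsub : {t : Fin k → ℕ | (∀ i, 1 ≤ t i ∧ (t i : ℝ) ≤ X) ∧ R t} ⊆ (F : Set (Fin k → ℕ)) := by
    rintro t ⟨ht, hRt⟩
    have hfac : ∀ i, p ^ (t i).factorization p * (t i / p ^ (t i).factorization p) = t i := fun i =>
      Nat.ordProj_mul_ordCompl_eq_self (t i) p
    have hpos : ∀ i, 1 ≤ t i / p ^ (t i).factorization p := fun i =>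
      Nat.ordCompl_pos p (by have := (ht i).1; omega)
    rw [mem_coe, hF, mem_biUnion]
    refine ⟨fun i => (t i).factorization p, ?_, ?_⟩
    · rw [Fintype.mem_piFinset]
      intro i
      rw [mem_range, Nat.lt_succ_iff, hM]
      refine Nat.le_log_of_pow_le hp.one_lt ?_
      have h1 : p ^ (t i).factorization p ≤ t i := Nat.ordProj_le p (by have := (ht i).1; omega)
      exact h1.trans (Nat.le_floor (ht i).2)
    · rw [mem_image]
      refine ⟨fun i => t i / p ^ (t i).factorization p, ?_, funext hfac⟩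
      rw [Set.Finite.mem_toFinset]
      refine ⟨fun i => ⟨Nat.not_dvd_ordCompl hp (by have := (ht i).1; omega), ?_⟩, ?_⟩
      · refine le_trans ?_ (ht i).2
        exact_mod_cast Nat.div_le_self _ _
      · refine hinv (fun i => (t i).factorization p) _ hpos ?_
        have h2 : (fun i => p ^ (t i).factorization p * (t i / p ^ (t i).factorization p)) = t := funext hfac
        rw [h2]
        exact hRt
  refine ⟨(finite_toSet _).subset hsub, ?_⟩
  have h1 : {t : Fin k → ℕ | (∀ i, 1 ≤ t i ∧ (t i : ℝ) ≤ X) ∧ R t}.ncard ≤ (M + 1) ^ k * S.ncard := by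
    refine (Set.ncard_le_ncard hsub (finite_toSet _)).trans ?_
    rw [Set.ncard_coe_finset]
    refine (card_biUnion_le_card_mul _ _ S.ncard fun a _ => ?_).trans ?_
    · refine card_image_le.trans (le_of_eq ?_)
      rw [Set.ncard_eq_toFinset_card S hfin]
    · rw [Fintype.card_piFinset, prod_const, card_range, card_univ, Fintype.card_fin]
  have hMle : (M : ℝ) + 1 ≤ K * X ^ ε := by
    have h2 : p ^ M ≤ N := Nat.pow_log_le_self p (by omega)
    have h3 : ((p ^ M : ℕ) : ℝ) ≤ X := by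
      have : ((p ^ M : ℕ) : ℝ) ≤ N := by exact_mod_cast h2
      exact this.trans (Nat.floor_le hX0.le)
    have hp2 : (2 : ℝ) ≤ p := by exact_mod_cast hp.two_le
    have h4 : (M : ℝ) * Real.log 2 ≤ Real.log X := by
      have h5 : (2 : ℝ) ^ M ≤ X := by
        refine le_trans ?_ h3
        push_cast
        exact pow_le_pow_left₀ (by norm_num) hp2 M
      have h6 := Real.log_le_log (by positivity) h5
      rwa [Real.log_pow] at h6
    have h5 : Real.log X ≤ X ^ ε / ε := Real.log_le_rpow_div hX0.le hε0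
    have h6 : (M : ℝ) ≤ 1 / (ε * Real.log 2) * X ^ ε := by
      have h7 : (M : ℝ) * Real.log 2 ≤ X ^ ε / ε := h4.trans h5
      rw [← le_div_iff₀ hlog2] at h7
      refine h7.trans (le_of_eq ?_)
      field_simp
    have h7 : (1 : ℝ) ≤ X ^ ε := Real.one_le_rpow hX hε0.le
    rw [hK, add_mul, one_mul]
    linarith
  calc (({t : Fin k → ℕ | (∀ i, 1 ≤ t i ∧ (t i : ℝ) ≤ X) ∧ R t}.ncard : ℕ) : ℝ)
      ≤ ((M : ℝ) + 1) ^ k * (S.ncard : ℝ) := by exact_mod_cast h1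
    _ ≤ (K * X ^ ε) ^ k * (C * X ^ ((k : ℝ) - κ)) := by
        refine mul_le_mul (pow_le_pow_left₀ (by positivity) hMle k) hcard (by positivity) (by positivity)
    _ = K ^ k * C * (X ^ (ε * k) * X ^ ((k : ℝ) - κ)) := by
        rw [mul_pow, ← Real.rpow_natCast (X ^ ε) k, ← Real.rpow_mul hX0.le]
        ring
    _ = K ^ k * C * X ^ ((k : ℝ) - 1 / (2 * ((E₀ : ℝ) + 2))) := by
        rw [← Real.rpow_add hX0]
        congr 2
        rw [hε, hκ]
        field_simp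
        ring

end Pool.Agent.H223.PS
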