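import Pool.Agent.H107.MetricFam

/-! Sparse sets of (tuples of) natural numbers in residue classes modulo powers of `p`: almost every `p`-adic integer `α` has
the property that for all large `T` no member `t ≤ T` of the set satisfies `|t - α|_p ≤ T ^ (-σ)`. -/

set_option autoImplicit false

open MeasureTheory Filter Topology

namespace Pool.Agent.H223.PS

/-- **Tuples.** `Bad j`, `j` in `ℕ`, have at most `C X ^ (s + ε)` members with coordinates at most `X`. -/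
theorem padic_tuples (p : ℕ) [Fact p.Prime] {k : ℕ} (Bad : ℕ → Set (Fin k → ℕ)) {s : ℝ} (hs : 0 ≤ s)
    (h : ∀ j, ∀ ε : ℝ, 0 < ε → ∃ C : ℝ, ∀ X : ℝ, 1 ≤ X → {t : Fin k → ℕ | (∀ i, (t i : ℝ) ≤ X) ∧ t ∈ Bad j}.Finite ∧
      ({t : Fin k → ℕ | (∀ i, (t i : ℝ) ≤ X) ∧ t ∈ Bad j}.ncard : ℝ) ≤ C * X ^ (s + ε)) {σ : ℝ} (hσ : 0 < σ) :
    ∃ E : Set (Fin k → ℤ_[p]), dimH E ≤ ENNReal.ofReal (s / σ) ∧ ∀ α ∉ E, ∀ j, ∃ T₀ : ℝ, ∀ T ≥ T₀, ∀ t : Fin k → ℕ,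
      (∀ i, (t i : ℝ) ≤ T ∧ ‖(t i : ℤ_[p]) - α i‖ ≤ T ^ (-σ)) → t ∉ Bad j := by
  classical
  set φ : (Fin k → ℕ) → (Fin k → ℤ_[p]) := fun t i => (t i : ℤ_[p]) with hφ
  set ht : (Fin k → ℕ) → ℝ := fun t => max 1 ‖fun i => (t i : ℝ)‖ with hht
  obtain ⟨E, hE1, hE2⟩ := Pool.Agent.H107.ME.dim_family φ ht (fun t => le_max_left _ _) hs hσ Bad (fun j ε hε => by
      obtain ⟨C, hC⟩ := h j ε hε
      refine ⟨C, fun X hX => ?_⟩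
      obtain ⟨g1, g2⟩ := hC X hX
      have hsub : {t | t ∈ Bad j ∧ ht t ≤ X} ⊆ {t : Fin k → ℕ | (∀ i, (t i : ℝ) ≤ X) ∧ t ∈ Bad j} := by
        rintro t ⟨a, b⟩
        refine ⟨fun i => ?_, a⟩
        have h1 := norm_le_pi_norm (fun i => (t i : ℝ)) i
        rw [Real.norm_of_nonneg (Nat.cast_nonneg _)] at h1
        exact h1.trans ((le_max_right _ _).trans b)
      refine ⟨g1.subset hsub, le_trans ?_ g2⟩
      exact_mod_cast Set.ncard_le_ncard hsub g1)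
  refine ⟨E ∪ Set.range φ, ?_, fun α hα j => ?_⟩
  · rw [dimH_union, (Set.countable_range φ).dimH_zero]
    exact max_le hE1 bot_le
  rw [Set.mem_union, not_or] at hα
  have hfin := hE2 α hα.1 j
  have hne : ∀ t ∈ {t | t ∈ Bad j ∧ dist (φ t) α ≤ (ht t) ^ (-σ)}, ∀ᶠ T : ℝ in atTop, T ^ (-σ) < dist (φ t) α := by
    intro t _
    have h1 : 0 < dist (φ t) α := dist_pos.2 fun h2 => hα.2 ⟨t, h2⟩
    exact (tendsto_rpow_neg_atTop hσ).eventually (gt_mem_nhds h1)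
  obtain ⟨T₀, hT₀⟩ := eventually_atTop.1 ((Filter.eventually_all_finite hfin).2 hne)
  refine ⟨max T₀ 1, fun T hT t htT hexc => ?_⟩
  have hT1 : 1 ≤ T := (le_max_right _ _).trans hT
  have hT0 : 0 < T := by linarith
  have hdist : dist (φ t) α ≤ T ^ (-σ) := by
    rw [dist_pi_le_iff (Real.rpow_nonneg hT0.le _)]
    intro i
    rw [dist_eq_norm]
    exact (htT i).2
  have hle : ht t ≤ T := by
    refine max_le hT1 ?_
    rw [pi_norm_le_iff_of_nonneg hT0.le]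
    intro i
    rw [Real.norm_of_nonneg (Nat.cast_nonneg _)]
    exact (htT i).1
  have hmem : t ∈ {t | t ∈ Bad j ∧ dist (φ t) α ≤ (ht t) ^ (-σ)} :=
    ⟨hexc, hdist.trans (Real.rpow_le_rpow_of_nonpos (lt_of_lt_of_le one_pos (le_max_left _ _)) hle (by linarith))⟩
  have h3 := hT₀ T ((le_max_left _ _).trans hT) t hmem
  linarith

/-- **Natural numbers.** For `α ∈ ℤ_p` outside of a set of dimension at most `s / σ` and all large `T`, no `t ≤ T` with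
`|t - α|_p ≤ T ^ (-σ)` is in `Bad j`. -/
theorem padic_nat (p : ℕ) [Fact p.Prime] (Bad : ℕ → Set ℕ) {s : ℝ} (hs : 0 ≤ s)
    (h : ∀ j, ∀ ε : ℝ, 0 < ε → ∃ C : ℝ, ∀ X : ℝ, 1 ≤ X → {t : ℕ | t ∈ Bad j ∧ (t : ℝ) ≤ X}.Finite ∧
      ({t : ℕ | t ∈ Bad j ∧ (t : ℝ) ≤ X}.ncard : ℝ) ≤ C * X ^ (s + ε)) {σ : ℝ} (hσ : 0 < σ) :
    ∃ E : Set ℤ_[p], dimH E ≤ ENNReal.ofReal (s / σ) ∧ ∀ α ∉ E, ∀ j, ∃ T₀ : ℝ, ∀ T ≥ T₀, ∀ t : ℕ,
      (t : ℝ) ≤ T → ‖(t : ℤ_[p]) - α‖ ≤ T ^ (-σ) → t ∉ Bad j := by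
  classical
  set φ : ℕ → ℤ_[p] := fun t => (t : ℤ_[p]) with hφ
  set ht : ℕ → ℝ := fun t => max 1 (t : ℝ) with hht
  obtain ⟨E, hE1, hE2⟩ := Pool.Agent.H107.ME.dim_family φ ht (fun t => le_max_left _ _) hs hσ Bad (fun j ε hε => by
      obtain ⟨C, hC⟩ := h j ε hε
      refine ⟨C, fun X hX => ?_⟩
      obtain ⟨g1, g2⟩ := hC X hX
      have hsub : {t | t ∈ Bad j ∧ ht t ≤ X} ⊆ {t : ℕ | t ∈ Bad j ∧ (t : ℝ) ≤ X} := by
        rintro t ⟨a, b⟩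
        exact ⟨a, (le_max_right _ _).trans b⟩
      refine ⟨g1.subset hsub, le_trans ?_ g2⟩
      exact_mod_cast Set.ncard_le_ncard hsub g1)
  refine ⟨E ∪ Set.range φ, ?_, fun α hα j => ?_⟩
  · rw [dimH_union, (Set.countable_range φ).dimH_zero]
    exact max_le hE1 bot_le
  rw [Set.mem_union, not_or] at hα
  have hfin := hE2 α hα.1 j
  have hne : ∀ t ∈ {t | t ∈ Bad j ∧ dist (φ t) α ≤ (ht t) ^ (-σ)}, ∀ᶠ T : ℝ in atTop, T ^ (-σ) < dist (φ t) α := by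
    intro t _
    have h1 : 0 < dist (φ t) α := dist_pos.2 fun h2 => hα.2 ⟨t, h2⟩
    exact (tendsto_rpow_neg_atTop hσ).eventually (gt_mem_nhds h1)
  obtain ⟨T₀, hT₀⟩ := eventually_atTop.1 ((Filter.eventually_all_finite hfin).2 hne)
  refine ⟨max T₀ 1, fun T hT t htT htα hexc => ?_⟩
  have hT1 : 1 ≤ T := (le_max_right _ _).trans hT
  have hT0 : 0 < T := by linarith
  have hmem : t ∈ {t | t ∈ Bad j ∧ dist (φ t) α ≤ (ht t) ^ (-σ)} := by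
    refine ⟨hexc, ?_⟩
    rw [dist_eq_norm]
    exact htα.trans (Real.rpow_le_rpow_of_nonpos (lt_of_lt_of_le one_pos (le_max_left _ _)) (max_le hT1 htT)
      (by linarith))
  have h3 := hT₀ T ((le_max_left _ _).trans hT) t hmem
  rw [dist_eq_norm] at h3
  linarith

/-- the same with counts at integers -/
theorem padic_nat' (p : ℕ) [Fact p.Prime] (Bad : ℕ → Set ℕ) {s : ℝ} (hs : 0 ≤ s)
    (h : ∀ j, ∀ ε : ℝ, 0 < ε → ∃ C : ℝ, ∀ X : ℕ, 1 ≤ X → {t : ℕ | t ∈ Bad j ∧ t ≤ X}.Finite ∧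
      ({t : ℕ | t ∈ Bad j ∧ t ≤ X}.ncard : ℝ) ≤ C * (X : ℝ) ^ (s + ε)) {σ : ℝ} (hσ : 0 < σ) :
    ∃ E : Set ℤ_[p], dimH E ≤ ENNReal.ofReal (s / σ) ∧ ∀ α ∉ E, ∀ j, ∃ T₀ : ℝ, ∀ T ≥ T₀, ∀ t : ℕ,
      (t : ℝ) ≤ T → ‖(t : ℤ_[p]) - α‖ ≤ T ^ (-σ) → t ∉ Bad j := by
  refine padic_nat p Bad hs (fun j ε hε => ?_) hσ
  obtain ⟨C, hC⟩ := h j ε hε
  refine ⟨C, fun X hX => ?_⟩
  have h1 : 1 ≤ ⌊X⌋₊ := Nat.le_floor (by exact_mod_cast hX)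
  have hset : {t : ℕ | t ∈ Bad j ∧ (t : ℝ) ≤ X} = {t : ℕ | t ∈ Bad j ∧ t ≤ ⌊X⌋₊} := by
    ext t
    simp only [Set.mem_ofPred_eq]
    exact and_congr_right fun _ => (Nat.le_floor_iff (by linarith)).symm
  obtain ⟨g1, g2⟩ := hC ⌊X⌋₊ h1
  rw [hset]
  refine ⟨g1, g2.trans ?_⟩
  have hC0 : 0 ≤ C := by
    obtain ⟨-, g4⟩ := hC 1 le_rfl
    rw [Nat.cast_one, Real.one_rpow, mul_one] at g4
    exact (Nat.cast_nonneg _).trans g4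
  refine mul_le_mul_of_nonneg_left ?_ hC0
  exact Real.rpow_le_rpow (Nat.cast_nonneg _) (Nat.floor_le (by linarith)) (by linarith)

end Pool.Agent.H223.PS
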