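import Pool.Agent.H223.PS.Span

/-! Linear combinations of complex numbers indexed by a finite set, one of which is `1`, whose near relations at each scale
span a space of dimension at most `r`. -/

set_option autoImplicit false

open MeasureTheory

namespace Pool.Agent.H223.PS

open Pool.Agent.V35.WM (ExpLe)

/-- `a + ∑ q_w z_w` -/
noncomputable def valC {ι : Type} [Fintype ι] (z : ι → ℂ) (q : ι → ℤ) (a : ℤ) : ℂ := a + ∑ w, (q w : ℂ) * z w

theorem mz_mainC {ι : Type} [Fintype ι] (z : ι → ℂ) (r m : ℕ) {c : ℝ} (hc : 0 < c)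
    (h : ∀ X : ℝ, 1 ≤ X → ∀ b : Fin (r + 1) → Option ι → ℤ,
      (∀ k, (∀ w, |(b k w : ℝ)| ≤ X) ∧ ‖(b k none : ℂ) + ∑ w, (b k (some w) : ℂ) * z w‖ < c / X ^ m) →
      ¬ LinearIndependent ℤ b) :
    ∃ c' : ℝ, 0 < c' ∧
    (∀ (p : ℕ) [Fact p.Prime] (σ : ℝ), 0 < σ → ∃ E : Set (ι → ℤ_[p]), dimH E ≤ ENNReal.ofReal (r / σ) ∧
      ∀ α ∉ E, ∃ T₀ : ℝ, ∀ T ≥ T₀, ∀ q : ι → ℤ, (∀ w, |(q w : ℝ)| ≤ T ∧ ‖(q w : ℤ_[p]) - α w‖ ≤ T ^ (-σ)) →
        ∀ a : ℤ, c' / T ^ m ≤ ‖valC z q a‖) ∧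
    (∀ (v : ℕ → ℝ) (τ θ : ℝ), (∀ j, 1 ≤ v j) → 0 ≤ τ → ExpLe v τ → θ < 1 →
      ∃ E : Set (ι → ℝ), dimH E ≤ ENNReal.ofReal ((r + τ) / (1 - θ)) ∧
      ∀ β ∉ E, ∃ c'' : ℝ, 0 < c'' ∧ ∃ j₀ : ℕ, ∀ j ≥ j₀, ∀ q : ι → ℤ,
        (∀ w, |(q w : ℝ) - β w * v j| ≤ (v j) ^ θ) → ∀ a : ℤ, c'' / (v j) ^ m ≤ ‖valC z q a‖) := by
  classical
  obtain ⟨W, hW⟩ : ∃ W : ℝ, W = ∑ w, ‖z w‖ := ⟨_, rfl⟩
  have hW0 : 0 ≤ W := by
    rw [hW]
    exact Finset.sum_nonneg fun w _ => norm_nonneg _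
  obtain ⟨B, hB⟩ : ∃ B : ℝ, B = W + 1 := ⟨_, rfl⟩
  have hB1 : 1 ≤ B := by linarith
  have hB0 : 0 < B := by linarith
  obtain ⟨c₁, hc₁⟩ : ∃ c₁ : ℝ, c₁ = min 1 (c / B ^ m) := ⟨_, rfl⟩
  have hc₁0 : 0 < c₁ := by rw [hc₁]; positivity
  obtain ⟨Bad, hBad⟩ : ∃ Bad : ℝ → Set (ι → ℤ), Bad = fun X => {q | (∀ w, |(q w : ℝ)| ≤ X) ∧ ∃ a : ℤ,
      ‖valC z q a‖ < c₁ / X ^ m} := ⟨_, rfl⟩
  have hcount : ∀ X : ℝ, 1 ≤ X → (Bad X).Finite ∧ ((Bad X).ncard : ℝ) ≤ (3 * (B * X)) ^ r := by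
    intro X hX
    have hX0 : 0 < X := by linarith
    have hBX : 1 ≤ B * X := one_le_mul_of_one_le_of_one_le hB1 hX
    obtain ⟨S, hS⟩ : ∃ S : Set (Option ι → ℤ), S = {b | (∀ w, |(b w : ℝ)| ≤ B * X) ∧
        ‖(b none : ℂ) + ∑ w, (b (some w) : ℂ) * z w‖ < c / (B * X) ^ m} := ⟨_, rfl⟩
    obtain ⟨s1, s2⟩ := count_span r S hBX (fun b hb => by rw [hS] at hb; exact hb.1) (fun w hw => by
      apply h (B * X) hBX w
      intro k
      have := hw k
      rw [hS] at this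
      exact this)
    have hsub : Bad X ⊆ (fun b : Option ι → ℤ => fun w => b (some w)) '' S := by
      intro q hq
      rw [hBad] at hq
      obtain ⟨hq1, a, ha⟩ := hq
      refine ⟨fun o => o.elim a q, ?_, rfl⟩
      rw [hS]
      have hpm : (1 : ℝ) ≤ X ^ m := one_le_pow₀ hX
      have hval : ‖valC z q a‖ < 1 := by
        refine ha.trans_le ?_
        rw [div_le_one (by positivity), hc₁]
        exact (min_le_left _ _).trans hpm
      have hsum : ‖∑ w, (q w : ℂ) * z w‖ ≤ X * W := by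
        rw [hW, Finset.mul_sum]
        refine (norm_sum_le _ _).trans (Finset.sum_le_sum fun w _ => ?_)
        rw [norm_mul, Complex.norm_intCast]
        exact mul_le_mul_of_nonneg_right (hq1 w) (norm_nonneg _)
      have ha1 : |(a : ℝ)| ≤ 1 + X * W := by
        have e1 : (a : ℂ) = valC z q a - ∑ w, (q w : ℂ) * z w := by
          unfold valC
          ring
        calc |(a : ℝ)| = ‖(a : ℂ)‖ := (Complex.norm_intCast a).symm
          _ = ‖valC z q a - ∑ w, (q w : ℂ) * z w‖ := by rw [← e1]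
          _ ≤ ‖valC z q a‖ + ‖∑ w, (q w : ℂ) * z w‖ := norm_sub_le _ _
          _ ≤ 1 + X * W := by linarith
      constructor
      · intro o
        cases o with
        | none =>
          show |(a : ℝ)| ≤ B * X
          rw [hB]
          nlinarith
        | some w =>
          show |(q w : ℝ)| ≤ B * X
          have := hq1 w
          nlinarith
      · show ‖valC z q a‖ < c / (B * X) ^ m
        refine ha.trans_le ?_
        rw [mul_pow, ← div_div]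
        apply div_le_div_of_nonneg_right _ (by positivity)
        rw [hc₁]
        exact min_le_right _ _
    refine ⟨(s1.image _).subset hsub, ?_⟩
    have h3 : (Bad X).ncard ≤ S.ncard :=
      (Set.ncard_le_ncard hsub (s1.image _)).trans (Set.ncard_image_le s1)
    calc ((Bad X).ncard : ℝ) ≤ (S.ncard : ℝ) := by exact_mod_cast h3
      _ ≤ _ := s2
  obtain ⟨g1, g2⟩ := abs_main Bad (Nat.cast_nonneg r) (fun ε hε => by
    refine ⟨(3 * B) ^ r, fun X hX => ?_⟩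
    obtain ⟨a1, a2⟩ := hcount X hX
    refine ⟨a1, a2.trans ?_⟩
    rw [← mul_assoc, mul_pow]
    apply mul_le_mul_of_nonneg_left _ (by positivity)
    rw [← Real.rpow_natCast]
    exact Real.rpow_le_rpow_of_exponent_le hX (by linarith))
  have he : 0 < Real.exp 1 := Real.exp_pos 1
  refine ⟨c₁ / (Real.exp 1) ^ m, by positivity, ?_, ?_⟩
  · intro p _ σ hσ
    obtain ⟨E, e1, e2⟩ := g1 p σ hσ
    refine ⟨E, e1, fun α hα => ?_⟩
    obtain ⟨T₀, hT₀, e3⟩ := e2 α hα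
    refine ⟨T₀, fun T hT q hq a => ?_⟩
    have hT1 : 1 ≤ T := hT₀.trans hT
    have hT0 : 0 < T := by linarith
    obtain ⟨X, hX1, hX2, hX3⟩ := e3 T hT q fun w => (hq w).2
    have hX0 : 0 < X := by linarith
    have h7 : c₁ / X ^ m ≤ ‖valC z q a‖ := by
      by_contra hcon
      apply hX3
      rw [hBad]
      exact ⟨fun w => (hq w).1.trans hX1, a, not_le.1 hcon⟩
    refine le_trans ?_ h7
    rw [div_div, ← mul_pow]
    exact div_le_div_of_nonneg_left hc₁0.le (by positivity) (pow_le_pow_left₀ hX0.le hX2 _)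
  · intro v τ θ hv1 hτ hv hθ
    obtain ⟨E, e1, e2⟩ := g2 v τ θ hv1 hτ hv hθ
    refine ⟨E, e1, fun β hβ => ?_⟩
    obtain ⟨J, hJ, j₀, e3⟩ := e2 β hβ
    have hJ0 : 0 < J := by linarith
    refine ⟨c₁ / J ^ m, by positivity, j₀, fun j hj q hq a => ?_⟩
    have hv0 : 0 < v j := lt_of_lt_of_le one_pos (hv1 j)
    obtain ⟨f1, f2⟩ := e3 j hj q hq
    rw [div_div, ← mul_pow]
    by_contra hcon
    apply f2
    rw [hBad]
    exact ⟨f1, a, not_le.1 hcon⟩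

end Pool.Agent.H223.PS
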