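import Pool.Agent.H223.PS.Scales

/-! Linear forms `q_0 z + … + q_k z ^ (k + 1)` with coefficient vectors near almost every `p`-adic point and in windows:
distances from integers and digits. -/

set_option autoImplicit false

open MeasureTheory Filter Topology Polynomial

namespace Pool.Agent.H223.PS

/-- `q_0 z + q_1 z ^ 2 + … + q_k z ^ (k + 1)` -/
noncomputable def comb (z : ℝ) {k : ℕ} (q : Fin (k + 1) → ℤ) : ℝ := ∑ i, (q i : ℝ) * z ^ ((i : ℕ) + 1)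

noncomputable def pol {k : ℕ} (q : Fin (k + 1) → ℤ) (a : ℤ) : ℤ[X] :=
  C a + ∑ i : Fin (k + 1), C (q i) * X ^ ((i : ℕ) + 1)

lemma natDegree_pol {k : ℕ} (q : Fin (k + 1) → ℤ) (a : ℤ) : (pol q a).natDegree ≤ k + 1 := by
  unfold pol
  refine natDegree_add_le_of_degree_le (by simp) ?_
  refine natDegree_sum_le_of_forall_le _ _ fun i _ => ?_
  exact (natDegree_C_mul_X_pow_le _ _).trans (by omega)

lemma coeff_zero_pol {k : ℕ} (q : Fin (k + 1) → ℤ) (a : ℤ) : (pol q a).coeff 0 = a := by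
  unfold pol
  rw [coeff_add, coeff_C_zero, finsetSum_coeff]
  simp [coeff_X_pow]

lemma coeff_succ_pol {k : ℕ} (q : Fin (k + 1) → ℤ) (a : ℤ) (i : Fin (k + 1)) :
    (pol q a).coeff ((i : ℕ) + 1) = q i := by
  unfold pol
  rw [coeff_add, coeff_C_succ, finsetSum_coeff, zero_add, Finset.sum_eq_single i]
  · simp
  · intro j _ hj
    rw [coeff_C_mul, coeff_X_pow, if_neg, mul_zero]
    intro h
    exact hj (Fin.ext (by omega))
  · intro h
    exact absurd (Finset.mem_univ _) h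

lemma abs_coeff_pol {k : ℕ} (q : Fin (k + 1) → ℤ) (a : ℤ) {X : ℝ} (hX : 0 ≤ X) (ha : |(a : ℝ)| ≤ X)
    (hq : ∀ i, |(q i : ℝ)| ≤ X) (j : ℕ) : |((pol q a).coeff j : ℝ)| ≤ X := by
  rcases Nat.eq_zero_or_pos j with h | h
  · rw [h, coeff_zero_pol]
    exact ha
  · by_cases hj : j - 1 < k + 1
    · have h1 := coeff_succ_pol q a ⟨j - 1, hj⟩
      have h2 : ((⟨j - 1, hj⟩ : Fin (k + 1)) : ℕ) + 1 = j := by
        show j - 1 + 1 = j
        omega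
      rw [h2] at h1
      rw [h1]
      exact hq _
    · rw [coeff_eq_zero_of_natDegree_lt (lt_of_le_of_lt (natDegree_pol q a) (by omega))]
      simpa using hX

lemma aeval_pol {k : ℕ} (z : ℝ) (q : Fin (k + 1) → ℤ) (a : ℤ) : aeval z (pol q a) = comb z q + a := by
  unfold pol comb
  rw [map_add, map_sum, add_comm]
  simp

lemma aeval_pol_complex {k : ℕ} (z : ℂ) (q : Fin (k + 1) → ℤ) (a : ℤ) :
    aeval z (pol q a) = a + (q 0 * z + ∑ i : Fin k, (q i.succ : ℂ) * z ^ ((i.succ : Fin (k + 1)) : ℕ).succ) := by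
  unfold pol
  rw [map_add, map_sum, Fin.sum_univ_succ]
  simp

lemma abs_comb_le {k : ℕ} (z : ℝ) (q : Fin (k + 1) → ℤ) {X : ℝ} (hX : 0 ≤ X) (hq : ∀ i, |(q i : ℝ)| ≤ X) :
    |comb z q| ≤ (k + 1) * (max 1 |z|) ^ (k + 1) * X := by
  unfold comb
  refine (Finset.abs_sum_le_sum_abs _ _).trans ?_
  have h1 : ∀ i ∈ (Finset.univ : Finset (Fin (k + 1))), |(q i : ℝ) * z ^ ((i : ℕ) + 1)| ≤ X * (max 1 |z|) ^ (k + 1) := by
    intro i _
    rw [abs_mul, abs_pow]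
    refine mul_le_mul (hq i) ?_ (by positivity) hX
    calc |z| ^ ((i : ℕ) + 1) ≤ (max 1 |z|) ^ ((i : ℕ) + 1) := pow_le_pow_left₀ (abs_nonneg z) (le_max_right _ _) _
      _ ≤ (max 1 |z|) ^ (k + 1) := pow_le_pow_right₀ (le_max_left _ _) (by omega)
  refine (Finset.sum_le_sum h1).trans (le_of_eq ?_)
  rw [Finset.sum_const, Finset.card_univ, Fintype.card_fin, nsmul_eq_mul]
  push_cast
  ring

lemma count_tail {k : ℕ} (S : Set (Fin (k + 1) → ℤ)) {X : ℝ} (hX : 1 ≤ X) (h1 : ∀ q ∈ S, ∀ i, |(q i : ℝ)| ≤ X)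
    (h2 : ∀ q ∈ S, ∀ q' ∈ S, (∀ i : Fin k, q i.succ = q' i.succ) → q 0 = q' 0) :
    S.Finite ∧ (S.ncard : ℝ) ≤ (3 * X) ^ k := by
  classical
  have hX0 : 0 ≤ X := by linarith
  have hfl1 : (1 : ℤ) ≤ ⌊X⌋ := Int.le_floor.2 (by exact_mod_cast hX)
  have hmaps : Set.MapsTo (fun (q : Fin (k + 1) → ℤ) (i : Fin k) => q i.succ) S
      ((Fintype.piFinset fun _ : Fin k => Finset.Icc (-⌊X⌋) ⌊X⌋ : Finset (Fin k → ℤ)) : Set (Fin k → ℤ)) := by
    intro q hq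
    rw [Finset.mem_coe, Fintype.mem_piFinset]
    intro i
    obtain ⟨a1, a2⟩ := abs_le.1 (h1 q hq i.succ)
    rw [Finset.mem_Icc]
    constructor
    · have h3 : -(q i.succ) ≤ ⌊X⌋ := Int.le_floor.2 (by push_cast; linarith)
      show -⌊X⌋ ≤ q i.succ
      linarith
    · exact Int.le_floor.2 a2
  have hinj : Set.InjOn (fun (q : Fin (k + 1) → ℤ) (i : Fin k) => q i.succ) S := by
    intro q hq q' hq' h
    have h3 : ∀ i : Fin k, q i.succ = q' i.succ := fun i => congrFun h i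
    have h4 := h2 q hq q' hq' h3
    funext i
    refine Fin.cases h4 (fun j => h3 j) i
  refine ⟨Set.Finite.of_injOn hmaps hinj (Finset.finite_toSet _), ?_⟩
  have h5 := Set.ncard_le_ncard_of_injOn _ hmaps hinj (Finset.finite_toSet _)
  rw [Set.ncard_coe_finset, Fintype.card_piFinset, Finset.prod_const, Finset.card_univ, Fintype.card_fin,
    Int.card_Icc] at h5
  have h6 : (((⌊X⌋ + 1 - -⌊X⌋).toNat : ℕ) : ℝ) ≤ 3 * X := by
    have h7 : (((⌊X⌋ + 1 - -⌊X⌋).toNat : ℕ) : ℤ) = ⌊X⌋ + 1 - -⌊X⌋ := Int.toNat_of_nonneg (by linarith)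
    have h8 : (((⌊X⌋ + 1 - -⌊X⌋).toNat : ℕ) : ℝ) = (⌊X⌋ : ℝ) + 1 - -(⌊X⌋ : ℝ) := by
      exact_mod_cast congrArg (Int.cast : ℤ → ℝ) h7
    rw [h8]
    have h9 := Int.floor_le X
    linarith
  calc (S.ncard : ℝ) ≤ (((⌊X⌋ + 1 - -⌊X⌋).toNat ^ k : ℕ) : ℝ) := by exact_mod_cast h5
    _ = (((⌊X⌋ + 1 - -⌊X⌋).toNat : ℕ) : ℝ) ^ k := by push_cast; rfl
    _ ≤ (3 * X) ^ k := pow_le_pow_left₀ (Nat.cast_nonneg _) h6 _

lemma ncard_union_range {α : Type*} (F : ℕ → Set α) {B : ℝ} (hF : ∀ m, (F m).Finite ∧ ((F m).ncard : ℝ) ≤ B) (N : ℕ) :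
    (⋃ m ∈ Finset.range N, F m).Finite ∧ ((⋃ m ∈ Finset.range N, F m).ncard : ℝ) ≤ N * B := by
  induction N with
  | zero => simp
  | succ N ih =>
    have h1 : (⋃ m ∈ Finset.range (N + 1), F m) = F N ∪ ⋃ m ∈ Finset.range N, F m := by
      rw [Finset.range_add_one, Finset.set_biUnion_insert]
    rw [h1]
    refine ⟨(hF N).1.union ih.1, ?_⟩
    have h2 : ((F N ∪ ⋃ m ∈ Finset.range N, F m).ncard : ℝ) ≤ (F N).ncard + (⋃ m ∈ Finset.range N, F m).ncard := by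
      exact_mod_cast Set.ncard_union_le _ _
    have h3 := (hF N).2
    have h4 := ih.2
    push_cast
    linarith

/-- vectors at the scale `X` whose linear form is close to an integer -/
def BadN (z M c : ℝ) {k : ℕ} (X : ℝ) : Set (Fin (k + 1) → ℤ) :=
  {q | (∀ i, |(q i : ℝ)| ≤ X) ∧ ∃ a : ℤ, |comb z q + a| < c * X ^ (-(M - 1))}

/-- vectors at the scale `X` with simple digits at the scale `m` -/
def BadD (z ν K δ : ℝ) (cx : ℕ → ℝ → ℕ → ℕ) {k : ℕ} (m : ℕ) (X : ℝ) : Set (Fin (k + 1) → ℤ) :=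
  {q | (∀ i, |(q i : ℝ)| ≤ X) ∧ X ≤ Real.exp (δ * m) ∧ ∃ (a : ℤ) (D b L : ℕ), |(a : ℝ)| ≤ Real.exp (δ * m) ∧ 1 ≤ D ∧
    (D : ℝ) ≤ Real.exp (δ * m) ∧ 2 ≤ b ∧ K * Real.log b ≤ m ∧ (m : ℝ) ≤ L * Real.log b ∧
    cx b ((comb z q + a) / D) L * Real.log b < ν * m}

/-- the near relations of `z` have a common irrational zero at each scale -/
def HypN (z M c : ℝ) (k : ℕ) : Prop :=
  ∀ X : ℝ, 1 ≤ X → ∃ ξ : ℂ, (¬ ∃ r : ℚ, ξ = r) ∧ ∀ Q : ℤ[X], Q.natDegree ≤ k + 1 → (∀ i, |(Q.coeff i : ℝ)| ≤ X) →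
    |aeval z Q| < c * X ^ (-(M - 1)) → aeval ξ Q = 0

/-- the polynomials with simple digits at `z` satisfy a linear equation at each scale -/
def HypD (z ν K δ : ℝ) (cx : ℕ → ℝ → ℕ → ℕ) (k : ℕ) : Prop :=
  ∀ Λ : ℝ, 0 ≤ Λ → ∃ c : ℕ → ℚ, c 0 = 0 ∧ c 1 ≠ 0 ∧ ∀ (P : ℤ[X]) (D : ℕ), P.natDegree ≤ k + 1 → 1 ≤ D →
    (D : ℝ) ≤ Real.exp (δ * Λ) → (∀ i, |(P.coeff i : ℝ)| ≤ Real.exp (δ * Λ)) →
    (∃ b L : ℕ, 2 ≤ b ∧ K * Real.log b ≤ Λ ∧ Λ ≤ L * Real.log b ∧ cx b (aeval z P / D) L * Real.log b < ν * Λ) →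
    ∑ i ∈ Finset.range (k + 1 + 1), c i * P.coeff i = 0

lemma count_badN {z M c : ℝ} {k : ℕ} (hM : 1 ≤ M) (hc : 0 < c) (h : HypN z M c k) :
    ∃ c' : ℝ, 0 < c' ∧ ∀ X : ℝ, 1 ≤ X → (BadN z M c' (k := k) X).Finite ∧
      ((BadN z M c' (k := k) X).ncard : ℝ) ≤ (3 * X) ^ k := by
  obtain ⟨B, hB⟩ : ∃ B : ℝ, B = (k + 1) * (max 1 |z|) ^ (k + 1) + 1 := ⟨_, rfl⟩
  have hB1 : 1 ≤ B := by
    rw [hB]
    have : 0 ≤ ((k : ℝ) + 1) * (max 1 |z|) ^ (k + 1) := by positivity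
    linarith
  have hB0 : 0 < B := by linarith
  refine ⟨min 1 (c * B ^ (-(M - 1))), by positivity, fun X hX => ?_⟩
  have hX0 : 0 < X := by linarith
  obtain ⟨ξ, hξ, hQ⟩ := h (B * X) (one_le_mul_of_one_le_of_one_le hB1 hX)
  have hp : 0 < X ^ (-(M - 1)) := Real.rpow_pos_of_pos hX0 _
  have hp1 : X ^ (-(M - 1)) ≤ 1 := Real.rpow_le_one_of_one_le_of_nonpos hX (by linarith)
  have key : ∀ q ∈ BadN z M (min 1 (c * B ^ (-(M - 1)))) (k := k) X, ∃ a : ℤ, aeval ξ (pol q a) = 0 := by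
    rintro q ⟨hq1, a, ha⟩
    refine ⟨a, hQ (pol q a) (natDegree_pol q a) (abs_coeff_pol q a (by positivity) ?_ ?_) ?_⟩
    · have h1 := abs_comb_le z q hX0.le hq1
      have h2 : |comb z q + a| < 1 := by
        refine ha.trans_le ?_
        calc min 1 (c * B ^ (-(M - 1))) * X ^ (-(M - 1)) ≤ 1 * 1 :=
              mul_le_mul (min_le_left _ _) hp1 hp.le zero_le_one
          _ = 1 := one_mul 1
      have h3 : |(a : ℝ)| ≤ |comb z q + a| + |comb z q| := by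
        have h4 : (a : ℝ) = (comb z q + a) - comb z q := by ring
        calc |(a : ℝ)| = |(comb z q + a) - comb z q| := by rw [← h4]
          _ ≤ _ := abs_sub _ _
      rw [hB]
      nlinarith
    · intro i
      have h5 := hq1 i
      nlinarith
    · rw [aeval_pol]
      refine ha.trans_le ?_
      rw [Real.mul_rpow hB0.le hX0.le, ← mul_assoc]
      exact mul_le_mul_of_nonneg_right (min_le_right _ _) hp.le
  refine count_tail _ hX (fun q hq => hq.1) fun q hq q' hq' ht => ?_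
  obtain ⟨a, ha⟩ := key q hq
  obtain ⟨a', ha'⟩ := key q' hq'
  by_contra hne
  apply hξ
  rw [aeval_pol_complex] at ha ha'
  have hsum : ∑ i : Fin k, (q i.succ : ℂ) * ξ ^ ((i.succ : Fin (k + 1)) : ℕ).succ =
      ∑ i : Fin k, (q' i.succ : ℂ) * ξ ^ ((i.succ : Fin (k + 1)) : ℕ).succ :=
    Finset.sum_congr rfl fun i _ => by rw [ht i]
  rw [hsum] at ha
  have h6 : ((q 0 : ℂ) - q' 0) * ξ = a' - a := by linear_combination ha - ha'
  have h7 : ((q 0 : ℂ) - q' 0) ≠ 0 := by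
    rw [sub_ne_zero]
    exact_mod_cast hne
  refine ⟨((a' : ℚ) - a) / ((q 0 : ℚ) - q' 0), ?_⟩
  push_cast
  rw [eq_div_iff h7]
  rw [mul_comm]
  exact h6

lemma count_badD {z ν K δ : ℝ} {cx : ℕ → ℝ → ℕ → ℕ} {k : ℕ} (h : HypD z ν K δ cx k) (m : ℕ) {X : ℝ} (hX : 1 ≤ X) :
    (BadD z ν K δ cx (k := k) m X).Finite ∧ ((BadD z ν K δ cx (k := k) m X).ncard : ℝ) ≤ (3 * X) ^ k := by
  obtain ⟨c, hc0, hc1, hc⟩ := h m (Nat.cast_nonneg m)
  have key : ∀ q ∈ BadD z ν K δ cx (k := k) m X, c 1 * q 0 + ∑ i : Fin k, c ((i.succ : Fin (k + 1)) + 1) * q i.succ = 0 := by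
    rintro q ⟨hq1, hX2, a, D, b, L, ha, hD, hD2, hb, hK, hL, hcx⟩
    have h1 := hc (pol q a) D (natDegree_pol q a) hD hD2
      (abs_coeff_pol q a (Real.exp_pos _).le ha fun i => (hq1 i).trans hX2)
      ⟨b, L, hb, hK, hL, by rw [aeval_pol]; exact hcx⟩
    rw [Finset.sum_range_succ', hc0, zero_mul, add_zero, Finset.sum_range, Fin.sum_univ_succ] at h1
    have h2 : ∀ i : Fin (k + 1), (pol q a).coeff ((i : ℕ) + 1) = q i := fun i => coeff_succ_pol q a i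
    rw [← h1]
    congr 1
    · rw [h2 0]
      rfl
    · refine Finset.sum_congr rfl fun i _ => ?_
      rw [h2 i.succ]
  refine count_tail _ hX (fun q hq => hq.1) fun q hq q' hq' ht => ?_
  have h3 := key q hq
  have h4 := key q' hq'
  have hsum : ∑ i : Fin k, c ((i.succ : Fin (k + 1)) + 1) * (q i.succ : ℚ) =
      ∑ i : Fin k, c ((i.succ : Fin (k + 1)) + 1) * (q' i.succ : ℚ) :=
    Finset.sum_congr rfl fun i _ => by rw [ht i]
  rw [hsum] at h3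
  have h5 : c 1 * ((q 0 : ℚ) - q' 0) = 0 := by linarith
  rcases mul_eq_zero.1 h5 with h6 | h6
  · exact absurd h6 hc1
  · exact_mod_cast sub_eq_zero.1 h6

end Pool.Agent.H223.PS
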