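import Pool.Agent.H223.PS.Poly

/-! The main theorem on linear forms in the powers of a number, see `Poly`. -/

set_option autoImplicit false

open MeasureTheory Filter Topology Polynomial

namespace Pool.Agent.H223.PS

open Pool.Agent.V35.WM (ExpLe tendsto_of_expLe expLe_geom)

/-- the linear form with coefficient vector `q` has no integer close to it and no simple digits at the scales from `T` to
`T ^ A` -/
def GoodAt (z M c δ ε A K T : ℝ) (cx : ℕ → ℝ → ℕ → ℕ) {k : ℕ} (q : Fin (k + 1) → ℤ) : Prop :=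
  (∀ a : ℤ, c * T ^ (-(M - 1)) ≤ |comb z q + a|) ∧
  ∀ (a : ℤ) (D b L : ℕ), |(a : ℝ)| ≤ T → 1 ≤ D → (D : ℝ) ≤ T → 2 ≤ b → K ≤ L → T ≤ (b : ℝ) ^ (δ * L) →
    (b : ℝ) ^ (δ * L) ≤ T ^ A → (1 / M - ε) * L ≤ cx b ((comb z q + a) / D) L

def Bad (z M c ν K δ A : ℝ) (cx : ℕ → ℝ → ℕ → ℕ) {k : ℕ} (X : ℝ) : Set (Fin (k + 1) → ℤ) :=
  BadN z M c X ∪ ⋃ m ∈ Finset.range (⌊A * (Real.log X + 1)⌋₊ + 1), BadD z ν K δ cx m X

lemma count_bad {z M c ν K δ A : ℝ} {cx : ℕ → ℝ → ℕ → ℕ} {k : ℕ} (hA : 0 ≤ A)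
    (h1 : ∀ X : ℝ, 1 ≤ X → (BadN z M c (k := k) X).Finite ∧ ((BadN z M c (k := k) X).ncard : ℝ) ≤ (3 * X) ^ k)
    (h2 : HypD z ν K δ cx k) (ε : ℝ) (hε : 0 < ε) : ∃ C : ℝ, ∀ X : ℝ, 1 ≤ X →
      (Bad z M c ν K δ A cx (k := k) X).Finite ∧
      ((Bad z M c ν K δ A cx (k := k) X).ncard : ℝ) ≤ C * X ^ ((k : ℝ) + ε) := by
  refine ⟨(A * (1 / ε + 1) + 2) * 3 ^ k, fun X hX => ?_⟩
  have hX0 : 0 < X := by linarith
  obtain ⟨a1, a2⟩ := h1 X hX
  obtain ⟨b1, b2⟩ := ncard_union_range (fun m => BadD z ν K δ cx (k := k) m X) (B := (3 * X) ^ k)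
    (fun m => count_badD h2 m hX) (⌊A * (Real.log X + 1)⌋₊ + 1)
  have hlog : 0 ≤ Real.log X := Real.log_nonneg hX
  have hAl : 0 ≤ A * (Real.log X + 1) := by positivity
  refine ⟨a1.union b1, ?_⟩
  have h3 : ((Bad z M c ν K δ A cx (k := k) X).ncard : ℝ) ≤ (BadN z M c (k := k) X).ncard +
      (⋃ m ∈ Finset.range (⌊A * (Real.log X + 1)⌋₊ + 1), BadD z ν K δ cx (k := k) m X).ncard := by
    unfold Bad
    exact_mod_cast Set.ncard_union_le _ _
  have hfl : ((⌊A * (Real.log X + 1)⌋₊ + 1 : ℕ) : ℝ) ≤ A * (Real.log X + 1) + 1 := by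
    push_cast
    linarith [Nat.floor_le hAl]
  have hp : 0 < (3 * X) ^ k := by positivity
  have h4 : ((Bad z M c ν K δ A cx (k := k) X).ncard : ℝ) ≤ (A * (Real.log X + 1) + 2) * (3 * X) ^ k := by
    have h5 := mul_le_mul_of_nonneg_right hfl hp.le
    linarith
  have h6 : Real.log X ≤ X ^ ε / ε := Real.log_le_rpow_div hX0.le hε
  have h7 : (1 : ℝ) ≤ X ^ ε := Real.one_le_rpow hX hε.le
  have h8 : A * (Real.log X + 1) + 2 ≤ (A * (1 / ε + 1) + 2) * X ^ ε := by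
    have h9 : Real.log X + 1 ≤ (1 / ε + 1) * X ^ ε := by
      have : X ^ ε / ε = 1 / ε * X ^ ε := by ring
      rw [this] at h6
      linarith
    have h10 := mul_le_mul_of_nonneg_left h9 hA
    nlinarith
  calc ((Bad z M c ν K δ A cx (k := k) X).ncard : ℝ) ≤ (A * (Real.log X + 1) + 2) * (3 * X) ^ k := h4
    _ ≤ ((A * (1 / ε + 1) + 2) * X ^ ε) * (3 * X) ^ k := mul_le_mul_of_nonneg_right h8 hp.le
    _ = (A * (1 / ε + 1) + 2) * 3 ^ k * X ^ ((k : ℝ) + ε) := by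
        rw [Real.rpow_add hX0, Real.rpow_natCast, mul_pow]
        ring

lemma transfer {z M c ε K δ A J T X : ℝ} {cx : ℕ → ℝ → ℕ → ℕ} {k : ℕ} {q : Fin (k + 1) → ℤ} (hM : 1 ≤ M) (hc : 0 < c)
    (hε : 0 < ε) (hδ : 0 < δ) (hJ : 1 ≤ J) (hT1 : 1 ≤ T) (hTX : T ≤ X) (hXJ : X ≤ J * T)
    (hT : J * Real.exp δ ≤ T) (hq : ∀ i, |(q i : ℝ)| ≤ X)
    (hbad : q ∉ Bad z M c (1 / M - ε / 2) K δ (A / (δ / 2)) cx X) :
    GoodAt z M (c * J ^ (-(M - 1))) (δ / 2) ε A (|K| + 2 + 4 / ε) T cx q := by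
  have hT0 : 0 < T := by linarith
  have hX0 : 0 < X := by linarith
  have hJ0 : 0 < J := by linarith
  unfold Bad at hbad
  rw [Set.mem_union, not_or] at hbad
  constructor
  · intro a
    have h1 : c * X ^ (-(M - 1)) ≤ |comb z q + a| := by
      by_contra hcon
      exact hbad.1 ⟨hq, a, not_le.1 hcon⟩
    refine le_trans ?_ h1
    rw [mul_assoc, ← Real.mul_rpow hJ0.le hT0.le]
    apply mul_le_mul_of_nonneg_left _ hc.le
    exact Real.rpow_le_rpow_of_nonpos hX0 hXJ (by linarith)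
  · intro a D b L ha hD hD2 hb hKL hTb hbA
    by_cases hν : 1 / M - ε / 2 < 0
    · have h1 : (1 / M - ε) * L ≤ 0 := mul_nonpos_of_nonpos_of_nonneg (by linarith) (Nat.cast_nonneg L)
      exact h1.trans (Nat.cast_nonneg _)
    rw [not_lt] at hν
    have hb2 : (2 : ℝ) ≤ b := by exact_mod_cast hb
    have hb0 : (0 : ℝ) < b := by linarith
    have hlb : 1 / 2 ≤ Real.log b := by
      have h2 : Real.log 2 ≤ Real.log b := Real.log_le_log (by norm_num) hb2
      have h3 := Real.log_two_gt_d9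
      linarith
    have hlb0 : 0 < Real.log b := by linarith
    have hbe : (b : ℝ) ^ (δ / 2 * L) = Real.exp (δ / 2 * (L * Real.log b)) := by
      rw [Real.rpow_def_of_pos hb0]
      congr 1
      ring
    rw [hbe] at hTb hbA
    obtain ⟨y, hy⟩ : ∃ y : ℝ, y = L * Real.log b := ⟨_, rfl⟩
    have hy0 : 0 ≤ y := by rw [hy]; positivity
    rw [← hy] at hTb hbA
    have hfl1 : ((⌊y⌋₊ : ℕ) : ℝ) ≤ y := Nat.floor_le hy0
    have hfl2 : y < ((⌊y⌋₊ : ℕ) : ℝ) + 1 := Nat.lt_floor_add_one y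
    have hlogX : 0 ≤ Real.log X := Real.log_nonneg (hT1.trans hTX)
    have hlogT : Real.log T ≤ Real.log X := Real.log_le_log hT0 hTX
    -- X ≤ exp (δ m)
    have hXm : X ≤ Real.exp (δ * (⌊y⌋₊ : ℕ)) := by
      have h4 : Real.exp (δ * y) = Real.exp (δ / 2 * y) * Real.exp (δ / 2 * y) := by
        rw [← Real.exp_add]
        congr 1
        ring
      have h5 : T * T ≤ Real.exp (δ * y) := by
        rw [h4]
        exact mul_le_mul hTb hTb hT0.le (Real.exp_pos _).le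
      have h6 : Real.exp (δ * y) ≤ Real.exp δ * Real.exp (δ * (⌊y⌋₊ : ℕ)) := by
        rw [← Real.exp_add]
        apply Real.exp_le_exp.2
        nlinarith
      have h7 : J * T * Real.exp δ ≤ Real.exp δ * Real.exp (δ * (⌊y⌋₊ : ℕ)) := by
        have h8 := mul_le_mul_of_nonneg_right hT hT0.le
        linarith
      have h9 : J * T ≤ Real.exp (δ * (⌊y⌋₊ : ℕ)) := by
        have h10 := Real.exp_pos δ
        by_contra hcon
        have := mul_lt_mul_of_pos_right (not_le.1 hcon) h10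
        linarith
      exact hXJ.trans h9
    have hmem : ⌊y⌋₊ ∈ Finset.range (⌊A / (δ / 2) * (Real.log X + 1)⌋₊ + 1) := by
      rw [Finset.mem_range, Nat.lt_succ_iff]
      apply Nat.floor_le_floor
      have h11 : δ / 2 * y ≤ A * Real.log T := by
        have h12 : Real.exp (δ / 2 * y) ≤ Real.exp (Real.log T * A) := by
          rw [← Real.rpow_def_of_pos hT0]
          exact hbA
        have h13 := Real.exp_le_exp.1 h12
        linarith
      have hA0 : 0 ≤ A ∨ Real.log T = 0 := by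
        by_contra hcon
        rw [not_or, not_le] at hcon
        have h14 : 0 < Real.log T := lt_of_le_of_ne (Real.log_nonneg hT1) (Ne.symm hcon.2)
        have h15 : A * Real.log T < 0 := mul_neg_of_neg_of_pos hcon.1 h14
        have h16 : 0 ≤ δ / 2 * y := by positivity
        linarith
      have h17 : δ / 2 * y ≤ |A| * (Real.log X + 1) := by
        have h18 : A * Real.log T ≤ |A| * Real.log T :=
          mul_le_mul_of_nonneg_right (le_abs_self A) (Real.log_nonneg hT1)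
        have h19 : |A| * Real.log T ≤ |A| * (Real.log X + 1) :=
          mul_le_mul_of_nonneg_left (by linarith) (abs_nonneg A)
        linarith
      rcases hA0 with hA0 | hA0
      · rw [abs_of_nonneg hA0] at h17
        rw [div_mul_eq_mul_div, le_div_iff₀ (by positivity)]
        linarith
      · exfalso
        have h20 : T ≤ 1 := by
          have h21 := Real.exp_log hT0
          rw [hA0, Real.exp_zero] at h21
          linarith
        have h22 : 1 < Real.exp δ := Real.one_lt_exp_iff.2 hδ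
        nlinarith
    by_contra hcon
    rw [not_le] at hcon
    apply hbad.2
    rw [Set.mem_iUnion₂]
    refine ⟨⌊y⌋₊, hmem, hq, hXm, a, D, b, L, ha.trans (hTX.trans hXm), hD, hD2.trans (hTX.trans hXm), hb, ?_,
      hfl1.trans (le_of_eq hy), ?_⟩
    · have h23 : (|K| + 2) * Real.log b ≤ y := by
        rw [hy]
        apply mul_le_mul_of_nonneg_right _ hlb0.le
        have : 0 < 4 / ε := by positivity
        linarith
      have h24 : K * Real.log b ≤ |K| * Real.log b := mul_le_mul_of_nonneg_right (le_abs_self K) hlb0.le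
      linarith
    · have hM1 : 1 / M ≤ 1 := by
        rw [div_le_one (by linarith)]
        exact hM
      have h25 : (cx b ((comb z q + a) / D) L : ℝ) * Real.log b < (1 / M - ε) * L * Real.log b :=
        mul_lt_mul_of_pos_right hcon hlb0
      have h26 : (1 / M - ε) * L * Real.log b = (1 / M - ε / 2) * y - ε / 2 * y := by
        rw [hy]
        ring
      have h27 : 2 ≤ ε / 2 * (L : ℝ) * 1 := by
        have h28 : 4 / ε ≤ L := by
          have := abs_nonneg K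
          linarith
        rw [div_le_iff₀ hε] at h28
        linarith
      have h29 : 1 ≤ ε / 2 * y := by
        rw [hy]
        nlinarith
      have h30 : (1 / M - ε / 2) * y - 1 ≤ (1 / M - ε / 2) * (⌊y⌋₊ : ℕ) := by
        have h31 : (1 / M - ε / 2) * (y - (⌊y⌋₊ : ℕ)) ≤ 1 * 1 :=
          mul_le_mul (by linarith) (by linarith) (by linarith) zero_le_one
        linarith
      linarith

/-- **Main theorem.** -/
theorem main {z M : ℝ} (hM : 1 ≤ M) (k : ℕ) (cx : ℕ → ℝ → ℕ → ℕ) (h1 : ∃ c : ℝ, 0 < c ∧ HypN z M c k)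
    (ε : ℝ) (hε : 0 < ε) (h2 : ∃ K δ : ℝ, 0 < δ ∧ HypD z (1 / M - ε / 2) K δ cx k) :
    ∃ c K δ : ℝ, 0 < c ∧ 0 < δ ∧ ∀ A : ℝ, 1 ≤ A →
      (∀ (p : ℕ) [Fact p.Prime] (σ : ℝ), 0 < σ → ∃ E : Set (Fin (k + 1) → ℤ_[p]), dimH E ≤ ENNReal.ofReal (k / σ) ∧
        ∀ α ∉ E, ∃ T₀ : ℝ, ∀ T ≥ T₀, ∀ q : Fin (k + 1) → ℤ,
          (∀ i, |(q i : ℝ)| ≤ T ∧ ‖(q i : ℤ_[p]) - α i‖ ≤ T ^ (-σ)) → GoodAt z M c δ ε A K T cx q) ∧
      (∀ (v : ℕ → ℝ) (τ θ : ℝ), (∀ j, 1 ≤ v j) → 0 ≤ τ → ExpLe v τ → θ < 1 →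
        ∃ E : Set (Fin (k + 1) → ℝ), dimH E ≤ ENNReal.ofReal ((k + τ) / (1 - θ)) ∧
        ∀ β ∉ E, ∃ c' : ℝ, 0 < c' ∧ ∃ j₀ : ℕ, ∀ j ≥ j₀, ∀ q : Fin (k + 1) → ℤ,
          (∀ i, |(q i : ℝ) - β i * v j| ≤ (v j) ^ θ) → GoodAt z M c' δ ε A K (v j) cx q) := by
  obtain ⟨c₀, hc₀, hN⟩ := h1
  obtain ⟨c, hc, hcN⟩ := count_badN hM hc₀ hN
  obtain ⟨K, δ, hδ, hD⟩ := h2
  have he1 : (1 : ℝ) ≤ Real.exp 1 := Real.one_le_exp zero_le_one
  refine ⟨c * (Real.exp 1) ^ (-(M - 1)), |K| + 2 + 4 / ε, δ / 2, by positivity, by positivity, fun A hA => ⟨?_, ?_⟩⟩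
  · intro p _ σ hσ
    have hA0 : 0 ≤ A / (δ / 2) := by positivity
    have hv : ExpLe (fun m : ℕ => (Real.exp 1) ^ m) 0 := expLe_geom (Real.exp 1) (Real.one_lt_exp_iff.2 one_pos)
    obtain ⟨E, hE1, hE2⟩ := scales (M := Fin (k + 1) → ℤ_[p]) (fun (_ : ℕ) (q : Fin (k + 1) → ℤ) (i : Fin (k + 1)) => (q i : ℤ_[p]))
      (fun m : ℕ => (Real.exp 1) ^ m) (fun m => one_le_pow₀ he1) le_rfl hv (Nat.cast_nonneg k) hσ
      (fun _ m => Bad z M c (1 / M - ε / 2) K δ (A / (δ / 2)) cx (k := k) ((Real.exp 1) ^ (m + 1))) (fun _ ε' hε' => by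
        obtain ⟨C, hC⟩ := count_bad hA0 hcN hD ε' hε'
        refine ⟨|C| * (Real.exp 1) ^ ((k : ℝ) + ε'), fun m => ?_⟩
        obtain ⟨g1, g2⟩ := hC ((Real.exp 1) ^ (m + 1)) (one_le_pow₀ he1)
        refine ⟨g1, g2.trans ?_⟩
        rw [pow_succ, Real.mul_rpow (by positivity) (by positivity), mul_assoc |C|,
          mul_comm ((Real.exp 1) ^ ((k : ℝ) + ε'))]
        exact mul_le_mul_of_nonneg_right (le_abs_self C) (by positivity))
    refine ⟨E, by simpa using hE1, fun α hα => ?_⟩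
    obtain ⟨m₀, hm₀⟩ := hE2 α hα 0
    refine ⟨max (Real.exp 1 * Real.exp δ) ((Real.exp 1) ^ (m₀ + 1)), fun T hT q hq => ?_⟩
    have hT1 : Real.exp 1 * Real.exp δ ≤ T := (le_max_left _ _).trans hT
    have hT2 : (Real.exp 1) ^ (m₀ + 1) ≤ T := (le_max_right _ _).trans hT
    have hT3 : 1 ≤ T := (one_le_pow₀ he1).trans hT2
    have hT0 : 0 < T := by linarith
    obtain ⟨m, hm⟩ : ∃ m : ℕ, m = ⌊Real.log T⌋₊ := ⟨_, rfl⟩
    have hlT : 0 ≤ Real.log T := Real.log_nonneg hT3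
    have hmT : (Real.exp 1) ^ m ≤ T := by
      have h3 : (m : ℝ) ≤ Real.log T := by rw [hm]; exact Nat.floor_le hlT
      calc (Real.exp 1) ^ m = Real.exp m := by rw [← Real.exp_nat_mul]; ring_nf
        _ ≤ Real.exp (Real.log T) := Real.exp_le_exp.2 h3
        _ = T := Real.exp_log hT0
    have hTm : T ≤ (Real.exp 1) ^ (m + 1) := by
      have h3 : Real.log T ≤ ((m + 1 : ℕ) : ℝ) := by
        rw [hm]
        push_cast
        exact (Nat.lt_floor_add_one _).le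
      calc T = Real.exp (Real.log T) := (Real.exp_log hT0).symm
        _ ≤ Real.exp ((m + 1 : ℕ) : ℝ) := Real.exp_le_exp.2 h3
        _ = (Real.exp 1) ^ (m + 1) := by rw [← Real.exp_nat_mul]; ring_nf
    have hmm : m ≥ m₀ := by
      by_contra hcon
      have h4 : m + 1 ≤ m₀ := by omega
      have h5 : (Real.exp 1) ^ (m + 1) < (Real.exp 1) ^ (m₀ + 1) :=
        pow_lt_pow_right₀ (Real.one_lt_exp_iff.2 one_pos) (by omega)
      linarith
    refine transfer hM hc hε hδ he1 hT3 hTm ?_ hT1 (fun i => (hq i).1.trans hTm) ?_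
    · rw [pow_succ, mul_comm]
      exact mul_le_mul_of_nonneg_left hmT (by positivity)
    · intro hbad
      have h6 := hm₀ m hmm q hbad
      have h7 : dist (fun i : Fin (k + 1) => (q i : ℤ_[p])) α ≤ T ^ (-σ) := by
        rw [dist_pi_le_iff (Real.rpow_nonneg hT0.le _)]
        intro i
        rw [dist_eq_norm]
        exact (hq i).2
      have h8 : T ^ (-σ) ≤ ((Real.exp 1) ^ m) ^ (-σ) :=
        Real.rpow_le_rpow_of_nonpos (by positivity) hmT (by linarith)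
      linarith
  · intro v τ θ hv1 hτ hv hθ
    have hA0 : 0 ≤ A / (δ / 2) := by positivity
    obtain ⟨E, hE1, hE2⟩ := scales (M := Fin (k + 1) → ℝ) (fun (j : ℕ) (q : Fin (k + 1) → ℤ) (i : Fin (k + 1)) => (q i : ℝ) / v j)
      v hv1 hτ hv (Nat.cast_nonneg k) (sub_pos.2 hθ)
      (fun J j => Bad z M c (1 / M - ε / 2) K δ (A / (δ / 2)) cx (k := k) ((J + 1 : ℝ) * v j)) (fun J ε' hε' => by
        obtain ⟨C, hC⟩ := count_bad hA0 hcN hD ε' hε'
        refine ⟨|C| * (J + 1 : ℝ) ^ ((k : ℝ) + ε'), fun j => ?_⟩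
        have hv0 : 0 < v j := lt_of_lt_of_le one_pos (hv1 j)
        have hJ1 : (1 : ℝ) ≤ (J + 1 : ℝ) := by
          have : (0 : ℝ) ≤ J := Nat.cast_nonneg J
          linarith
        obtain ⟨g1, g2⟩ := hC ((J + 1 : ℝ) * v j) (one_le_mul_of_one_le_of_one_le hJ1 (hv1 j))
        refine ⟨g1, g2.trans ?_⟩
        rw [Real.mul_rpow (by positivity) hv0.le, mul_assoc |C|]
        exact mul_le_mul_of_nonneg_right (le_abs_self C) (by positivity))
    refine ⟨E, hE1, fun β hβ => ?_⟩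
    obtain ⟨J, hJ⟩ := exists_nat_ge (‖β‖ + 1)
    have hJ0 : (0 : ℝ) ≤ J := Nat.cast_nonneg J
    obtain ⟨j₀, hj₀⟩ := hE2 β hβ J
    have hvt := tendsto_of_expLe (fun j => lt_of_lt_of_le one_pos (hv1 j)) hτ hv
    obtain ⟨j₁, hj₁⟩ := eventually_atTop.1 (hvt.eventually_ge_atTop ((J + 1 : ℝ) * Real.exp δ))
    refine ⟨c * (J + 1 : ℝ) ^ (-(M - 1)), by positivity, max j₀ j₁, fun j hj q hq => ?_⟩
    have hv0 : 0 < v j := lt_of_lt_of_le one_pos (hv1 j)
    have hvθ : (v j) ^ θ ≤ v j := by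
      calc (v j) ^ θ ≤ (v j) ^ (1 : ℝ) := Real.rpow_le_rpow_of_exponent_le (hv1 j) hθ.le
        _ = v j := Real.rpow_one _
    refine transfer hM hc hε hδ (by linarith) (hv1 j) ?_ le_rfl (hj₁ j ((le_max_right _ _).trans hj)) (fun i => ?_) ?_
    · nlinarith
    · have h3 := hq i
      have h4 : |β i| ≤ ‖β‖ := norm_le_pi_norm β i
      have h5 : |(q i : ℝ)| ≤ |(q i : ℝ) - β i * v j| + |β i * v j| := by
        calc |(q i : ℝ)| = |((q i : ℝ) - β i * v j) + β i * v j| := by ring_nf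
          _ ≤ _ := abs_add_le _ _
      rw [abs_mul, abs_of_pos hv0] at h5
      have h6 : |β i| * v j ≤ (J - 1 : ℝ) * v j := mul_le_mul_of_nonneg_right (by linarith) hv0.le
      nlinarith
    · intro hbad
      have h6 := hj₀ j ((le_max_left _ _).trans hj) q hbad
      have h7 : dist (fun i : Fin (k + 1) => (q i : ℝ) / v j) β ≤ (v j) ^ (-(1 - θ)) := by
        rw [dist_pi_le_iff (Real.rpow_nonneg hv0.le _)]
        intro i
        rw [Real.dist_eq]
        have h8 : (q i : ℝ) / v j - β i = ((q i : ℝ) - β i * v j) / v j := by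
          field_simp
        have h9 : (v j) ^ (-(1 - θ)) = (v j) ^ θ / v j := by
          rw [show -(1 - θ) = θ - 1 by ring, Real.rpow_sub hv0, Real.rpow_one]
        rw [h8, h9, abs_div, abs_of_pos hv0]
        exact div_le_div_of_nonneg_right (hq i) hv0.le
      linarith

end Pool.Agent.H223.PS
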