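import Pool.Agent.H107.MetricFam
import Pool.Agent.V35.WM

/-! Finite sets of bounded size which depend on a scale `v k`: outside of a set of dimension at most `(s + τ) / σ` no point
is at distance at most `(v k) ^ (-σ)` from a member of the `k`-th set, `k` large. -/

set_option autoImplicit false

open MeasureTheory Filter Topology Set

namespace Pool.Agent.H223.PS

open Pool.Agent.V35.WM (ExpLe tendsto_of_expLe)

theorem scales {M ι : Type*} [MetricSpace M] (φ : ℕ → ι → M) (v : ℕ → ℝ) (hv1 : ∀ k, 1 ≤ v k) {τ s σ : ℝ}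
    (hτ : 0 ≤ τ) (hv : ExpLe v τ) (hs : 0 ≤ s) (hσ : 0 < σ) (S : ℕ → ℕ → Set ι)
    (h : ∀ J, ∀ ε : ℝ, 0 < ε → ∃ C : ℝ, ∀ k, (S J k).Finite ∧ ((S J k).ncard : ℝ) ≤ C * (v k) ^ (s + ε)) :
    ∃ E : Set M, dimH E ≤ ENNReal.ofReal ((s + τ) / σ) ∧ ∀ α ∉ E, ∀ J, ∃ k₀ : ℕ, ∀ k ≥ k₀, ∀ q ∈ S J k,
      (v k) ^ (-σ) < dist (φ k q) α := by
  classical
  obtain ⟨E, hE1, hE2⟩ := Pool.Agent.H107.ME.dim_family (P := ℕ × ι) (fun t => φ t.1 t.2) (fun t => v t.1)
    (fun t => hv1 t.1) (add_nonneg hs hτ) hσ (fun J : ℕ => {t : ℕ × ι | t.2 ∈ S J t.1}) (fun J ε hε => by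
      obtain ⟨C, hC⟩ := h J (ε / 2) (by linarith)
      have hC0 : 0 ≤ C := by
        have h1 := (hC 0).2
        have h2 : 0 < (v 0) ^ (s + ε / 2) := Real.rpow_pos_of_pos (lt_of_lt_of_le one_pos (hv1 0)) _
        by_contra hneg
        have h3 := mul_neg_of_neg_of_pos (not_le.1 hneg) h2
        have h4 : (0 : ℝ) ≤ ((S J 0).ncard : ℝ) := Nat.cast_nonneg _
        linarith
      have hsum := hv (τ + ε / 2) (by linarith)
      refine ⟨C * ∑' k, (v k) ^ (-(τ + ε / 2)), fun X hX => ?_⟩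
      have hK : {k | v k ≤ X}.Finite := by
        have h1 := (tendsto_of_expLe (fun k => lt_of_lt_of_le one_pos (hv1 k)) hτ hv).eventually_gt_atTop X
        rw [← Nat.cofinite_eq_atTop, Filter.eventually_cofinite] at h1
        exact h1.subset fun k hk => not_lt.2 hk
      obtain ⟨K, hKd⟩ : ∃ K : Finset ℕ, K = hK.toFinset := ⟨_, rfl⟩
      have hKmem : ∀ k, k ∈ K ↔ v k ≤ X := by
        intro k
        rw [hKd, Set.Finite.mem_toFinset, Set.mem_ofPred_eq]
      have hset : {t : ℕ × ι | t ∈ {t : ℕ × ι | t.2 ∈ S J t.1} ∧ v t.1 ≤ X} =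
          ((K.biUnion fun k => ((hC k).1.toFinset).image (fun q => (k, q)) : Finset (ℕ × ι)) : Set (ℕ × ι)) := by
        ext ⟨k, q⟩
        simp only [Set.mem_ofPred_eq, Finset.coe_biUnion, Finset.coe_image, Set.Finite.coe_toFinset, Set.mem_iUnion,
          Set.mem_image, Prod.mk.injEq, Finset.mem_coe, hKmem]
        constructor
        · rintro ⟨h1, h2⟩
          exact ⟨k, h2, q, h1, rfl, rfl⟩
        · rintro ⟨k', h2, q', h1, rfl, rfl⟩
          exact ⟨h1, h2⟩
      rw [hset]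
      refine ⟨Finset.finite_toSet _, ?_⟩
      rw [Set.ncard_coe_finset]
      have hX0 : 0 < X := by linarith
      have h5 : ((K.biUnion fun k => ((hC k).1.toFinset).image (fun q => (k, q))).card : ℝ) ≤
          ∑ k ∈ K, ((S J k).ncard : ℝ) := by
        have h6 := Finset.card_biUnion_le (s := K) (t := fun k => ((hC k).1.toFinset).image (fun q => (k, q)))
        have h7 : ∑ k ∈ K, (((hC k).1.toFinset).image (fun q => (k, q))).card ≤ ∑ k ∈ K, (S J k).ncard := by
          refine Finset.sum_le_sum fun k _ => ?_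
          exact Finset.card_image_le.trans (Set.ncard_eq_toFinset_card _ (hC k).1).ge
        exact_mod_cast h6.trans h7
      have h8 : ∀ k ∈ K, ((S J k).ncard : ℝ) ≤ C * X ^ (s + τ + ε) * (v k) ^ (-(τ + ε / 2)) := by
        intro k hk
        have hvk : 0 < v k := lt_of_lt_of_le one_pos (hv1 k)
        have h9 : (v k) ^ (s + ε / 2) = (v k) ^ (s + τ + ε) * (v k) ^ (-(τ + ε / 2)) := by
          rw [← Real.rpow_add hvk]
          congr 1
          ring
        calc ((S J k).ncard : ℝ) ≤ C * (v k) ^ (s + ε / 2) := (hC k).2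
          _ = C * ((v k) ^ (s + τ + ε) * (v k) ^ (-(τ + ε / 2))) := by rw [h9]
          _ ≤ C * (X ^ (s + τ + ε) * (v k) ^ (-(τ + ε / 2))) := by
              apply mul_le_mul_of_nonneg_left _ hC0
              apply mul_le_mul_of_nonneg_right _ (Real.rpow_nonneg hvk.le _)
              exact Real.rpow_le_rpow hvk.le ((hKmem k).1 hk) (by linarith)
          _ = _ := by ring
      calc ((K.biUnion fun k => ((hC k).1.toFinset).image (fun q => (k, q))).card : ℝ)
          ≤ ∑ k ∈ K, ((S J k).ncard : ℝ) := h5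
        _ ≤ ∑ k ∈ K, C * X ^ (s + τ + ε) * (v k) ^ (-(τ + ε / 2)) := Finset.sum_le_sum h8
        _ = C * X ^ (s + τ + ε) * ∑ k ∈ K, (v k) ^ (-(τ + ε / 2)) := by rw [Finset.mul_sum]
        _ ≤ C * X ^ (s + τ + ε) * ∑' k, (v k) ^ (-(τ + ε / 2)) := by
            apply mul_le_mul_of_nonneg_left _ (mul_nonneg hC0 (Real.rpow_nonneg hX0.le _))
            exact hsum.sum_le_tsum K fun k _ => Real.rpow_nonneg (le_trans zero_le_one (hv1 k)) _
        _ = C * (∑' k, (v k) ^ (-(τ + ε / 2))) * X ^ (s + τ + ε) := by ring)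
  refine ⟨E, hE1, fun α hα J => ?_⟩
  have hfin := hE2 α hα J
  obtain ⟨N, hN⟩ := (hfin.image Prod.fst).bddAbove
  refine ⟨N + 1, fun k hk q hq => ?_⟩
  by_contra hcon
  have h1 : k ≤ N := hN ⟨(k, q), ⟨hq, not_lt.1 hcon⟩, rfl⟩
  omega

end Pool.Agent.H223.PS
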