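import Pool.Agent.H223.PS.Abs

/-! Bounded integer vectors of which no `r + 1` are linearly independent. -/

set_option autoImplicit false

open Module

namespace Pool.Agent.H223.PS

lemma count_span {ι : Type} [Fintype ι] (r : ℕ) (S : Set (ι → ℤ)) {X : ℝ} (hX : 1 ≤ X)
    (h1 : ∀ q ∈ S, ∀ i, |(q i : ℝ)| ≤ X)
    (h2 : ∀ w : Fin (r + 1) → ι → ℤ, (∀ k, w k ∈ S) → ¬ LinearIndependent ℤ w) :
    S.Finite ∧ (S.ncard : ℝ) ≤ (3 * X) ^ r := by
  classical
  obtain ⟨φ, hφ⟩ : ∃ φ : (ι → ℤ) → (ι → ℚ), φ = fun q i => (q i : ℚ) := ⟨_, rfl⟩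
  obtain ⟨V, hV⟩ : ∃ V : Submodule ℚ (ι → ℚ), V = Submodule.span ℚ (φ '' S) := ⟨_, rfl⟩
  -- the dimension of `V`
  obtain ⟨b, hbS, hbV, hb⟩ := exists_linearIndependent ℚ (φ '' S)
  have hbfin : Finite b := hb.finite
  have hfb : Fintype b := Fintype.ofFinite b
  have hcard : Fintype.card b ≤ r := by
    by_contra hcon
    rw [not_le] at hcon
    obtain ⟨e⟩ : Nonempty (Fin (r + 1) ↪ b) :=
      Function.Embedding.nonempty_of_card_le (by rw [Fintype.card_fin]; omega)
    have hex : ∀ k, ∃ q ∈ S, φ q = (e k : ι → ℚ) := fun k => hbS (e k).2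
    choose w hwS hw using hex
    apply h2 w hwS
    have hli : LinearIndependent ℚ (fun k => φ (w k)) := by
      have h3 := hb.comp e e.injective
      have h3' : (fun k => φ (w k)) = (Subtype.val ∘ e : Fin (r + 1) → ι → ℚ) := funext fun k => hw k
      rw [h3']
      exact h3
    rw [Fintype.linearIndependent_iff] at hli ⊢
    intro g hg k
    have h4 : ∑ k, (g k : ℚ) • φ (w k) = 0 := by
      funext i
      have h5 := congrFun hg i
      rw [Finset.sum_apply] at h5 ⊢
      simp only [Pi.smul_apply, smul_eq_mul, Pi.zero_apply, hφ] at h5 ⊢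
      exact_mod_cast h5
    exact_mod_cast hli (fun k => (g k : ℚ)) h4 k
  have hfin : finrank ℚ V ≤ r := by
    rw [hV, ← hbV]
    refine (finrank_span_le_card b).trans ?_
    rw [Set.toFinset_card]
    convert hcard
  -- pivot coordinates
  obtain ⟨f, hf⟩ : ∃ f : ι → Dual ℚ V, f = fun i => (LinearMap.proj i).comp V.subtype := ⟨_, rfl⟩
  obtain ⟨κ, a, hainj, haspan, hali⟩ := exists_linearIndependent' ℚ f
  have hκfin : Finite κ := Finite.of_injective a hainj
  have hκ : Fintype κ := Fintype.ofFinite κ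
  have hκr : Fintype.card κ ≤ r := by
    have h6 := hali.fintype_card_le_finrank
    rw [Subspace.dual_finrank_eq] at h6
    exact h6.trans hfin
  have hsep : ∀ x ∈ V, (∀ k, x (a k) = 0) → x = 0 := by
    intro x hx hxa
    funext i
    have h7 : f i ∈ Submodule.span ℚ (Set.range (f ∘ a)) := by
      rw [haspan]
      exact Submodule.subset_span ⟨i, rfl⟩
    have h8 : Submodule.span ℚ (Set.range (f ∘ a)) ≤ LinearMap.ker (Dual.eval ℚ V ⟨x, hx⟩) := by
      rw [Submodule.span_le]
      rintro _ ⟨k, rfl⟩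
      rw [SetLike.mem_coe, LinearMap.mem_ker]
      show f (a k) ⟨x, hx⟩ = 0
      rw [hf]
      exact hxa k
    have h9 := h8 h7
    rw [LinearMap.mem_ker] at h9
    have h10 : f i ⟨x, hx⟩ = 0 := h9
    rw [hf] at h10
    exact h10
  obtain ⟨g1, g2⟩ := count_part (Set.range a) S hX h1 (fun q hq q' hq' hqq => by
    have h11 : φ q - φ q' = 0 := by
      apply hsep
      · rw [hV]
        exact Submodule.sub_mem _ (Submodule.subset_span ⟨q, hq, rfl⟩) (Submodule.subset_span ⟨q', hq', rfl⟩)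
      · intro k
        have h12 := hqq (a k) ⟨k, rfl⟩
        rw [hφ]
        show (q (a k) : ℚ) - (q' (a k) : ℚ) = 0
        rw [h12, sub_self]
    funext i
    have h13 := congrFun h11 i
    rw [hφ] at h13
    have h14 : (q i : ℚ) - (q' i : ℚ) = 0 := h13
    exact_mod_cast sub_eq_zero.1 h14)
  refine ⟨g1, g2.trans (pow_le_pow_right₀ (by linarith) ?_)⟩
  have h15 : (Set.range a).ncard = Fintype.card κ := by
    rw [← Set.image_univ, Set.ncard_image_of_injective _ hainj, Set.ncard_univ, Nat.card_eq_fintype_card]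
  rw [h15]
  exact hκr

end Pool.Agent.H223.PS
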